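import Mathlib
import Pool.Agent.Helper848.Lazy.Game

set_option autoImplicit false

/-!
# Lazy cops: retracts, and attaching pendant vertices
-/

namespace Pool.Agent.U448.LazyRetract

open LazyCops

/-- If `ρ : V → W` maps edges of `G` to edges or vertices of `H`, `ι : W → V` maps edges of `H` to
edges of `G` and `ρ ∘ ι = id`, then a winning position of `k` lazy cops on `G` against a
robber in the image of `ι` projects to a winning position on `H`. -/
theorem copsWin_retract {V W : Type*} {G : SimpleGraph V} {H : SimpleGraph W} (ρ : V → W)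
    (ι : W → V) (hρ : ∀ x y, G.Adj x y → ρ x = ρ y ∨ H.Adj (ρ x) (ρ y))
    (hι : ∀ x y, H.Adj x y → G.Adj (ι x) (ι y)) (hρι : ∀ x, ρ (ι x) = x) {k : ℕ}
    {c : Fin k → V} {v : V} (h : CopsWin G c v) :
    ∀ r : W, v = ι r → CopsWin H (fun i => ρ (c i)) r := by
  have hmove : ∀ c c' : Fin k → V, LazyMove G c c' →
      LazyMove H (fun i => ρ (c i)) (fun i => ρ (c' i)) := by
    rintro c c' (rfl | ⟨i, y, hy, rfl⟩)
    · exact Or.inl rfl
    · rcases hρ _ _ hy with h | h
      · left
        funext j
        by_cases hj : j = i
        · subst hj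
          simp [h]
        · simp [Function.update_of_ne hj]
      · right
        refine ⟨i, ρ y, h, ?_⟩
        funext j
        by_cases hj : j = i
        · subst hj
          simp
        · simp [Function.update_of_ne hj]
  induction h with
  | caught c v i h =>
    rintro r rfl
    exact CopsWin.caught _ _ i (by simp only [h, hρι])
  | capture c c' v hm i h =>
    rintro r rfl
    exact CopsWin.capture _ _ _ (hmove c c' hm) i (by simp only [h, hρι])
  | move c c' v hm h ih =>
    rintro r rfl
    refine CopsWin.move _ _ _ (hmove c c' hm) ?_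
    intro r' hr'
    refine ih (ι r') ?_ r' rfl
    rcases hr' with rfl | hr'
    · exact Or.inl rfl
    · exact Or.inr (hι _ _ hr')

/-- the graph `H` on `W` together with `m` pendant vertices attached to the vertex `w` -/
def pend {W : Type*} (H : SimpleGraph W) (w : W) (m : ℕ) : SimpleGraph (W ⊕ Fin m) where
  Adj x y := match x, y with
    | Sum.inl a, Sum.inl b => H.Adj a b
    | Sum.inl a, Sum.inr _ => a = w
    | Sum.inr _, Sum.inl b => b = w
    | Sum.inr _, Sum.inr _ => False
  symm := ⟨by
    rintro (a | a) (b | b) h
    · exact h.symm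
    · exact h
    · exact h
    · exact h⟩
  loopless := ⟨by
    rintro (a | a) h
    · exact H.irrefl h
    · exact h⟩

theorem pend_connected {W : Type*} {H : SimpleGraph W} (hH : H.Connected) (w : W) (m : ℕ) :
    (pend H w m).Connected := by
  have hmap : ∀ a b : W, H.Reachable a b → (pend H w m).Reachable (Sum.inl a) (Sum.inl b) := by
    intro a b hab
    let f : H →g pend H w m := ⟨Sum.inl, fun {a b} h => h⟩
    exact hab.map f
  have hall : ∀ x : W ⊕ Fin m, (pend H w m).Reachable x (Sum.inl w) := by
    rintro (a | a)
    · exact hmap _ _ (hH.preconnected a w)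
    · exact (SimpleGraph.Adj.reachable (show (pend H w m).Adj (Sum.inr a) (Sum.inl w) from rfl))
  have : Nonempty (W ⊕ Fin m) := ⟨Sum.inl w⟩
  exact ⟨fun x y => (hall x).trans (hall y).symm⟩

/-- On a finite graph some number of lazy cops wins, and the lazy cop number is attained. -/
theorem attained {V : Type*} [Fintype V] (G : SimpleGraph V) :
    ∃ c : Fin (lazyCopNumber G) → V, ∀ r, CopsWin G c r := by
  have hne : {k : ℕ | ∃ c : Fin k → V, ∀ r : V, CopsWin G c r}.Nonempty := by
    refine ⟨Fintype.card V, (Fintype.equivFin V).symm, fun r => ?_⟩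
    exact CopsWin.caught _ _ (Fintype.equivFin V r) (by simp)
  exact Nat.sInf_mem hne

/-- Lazy cop number of a retract. -/
theorem lazyCopNumber_retract_le {V W : Type*} [Fintype V] {G : SimpleGraph V}
    {H : SimpleGraph W} (ρ : V → W)
    (ι : W → V) (hρ : ∀ x y, G.Adj x y → ρ x = ρ y ∨ H.Adj (ρ x) (ρ y))
    (hι : ∀ x y, H.Adj x y → G.Adj (ι x) (ι y)) (hρι : ∀ x, ρ (ι x) = x) :
    lazyCopNumber H ≤ lazyCopNumber G := by
  obtain ⟨c, hc⟩ := attained G
  exact Nat.sInf_le ⟨fun i => ρ (c i), fun r => copsWin_retract ρ ι hρ hι hρι (hc (ι r)) r rfl⟩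

/-- For every connected graph `H` on `N ≥ 1` vertices and every `n ≥ N` there is a connected graph
on `n` vertices with a vertex of degree at least `n - N` whose lazy cop number is at least that
of `H`. -/
theorem exists_extension {W : Type*} [Fintype W] (H : SimpleGraph W) (hH : H.Connected)
    (n : ℕ) (hn : Fintype.card W ≤ n) :
    ∃ G : SimpleGraph (Fin n), G.Connected ∧ (∃ v, n ≤ (G.neighborSet v).ncard + Fintype.card W) ∧
      lazyCopNumber H ≤ lazyCopNumber G := by
  obtain ⟨w⟩ := hH.nonempty
  set m := n - Fintype.card W with hm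
  have hcard : Fintype.card (W ⊕ Fin m) = n := by
    rw [Fintype.card_sum, Fintype.card_fin]
    omega
  let e : (W ⊕ Fin m) ≃ Fin n := Fintype.equivFinOfCardEq hcard
  let G : SimpleGraph (Fin n) := (pend H w m).comap e.symm
  have hG : ∀ x y, G.Adj x y ↔ (pend H w m).Adj (e.symm x) (e.symm y) := fun x y => Iff.rfl
  let iso : pend H w m ≃g G := ⟨e, by
    intro a b
    rw [hG]
    simp⟩
  refine ⟨G, iso.connected_iff.mp (pend_connected hH w m), ⟨e (Sum.inl w), ?_⟩, ?_⟩
  · have hsub : Set.range (fun i : Fin m => e (Sum.inr i)) ⊆ G.neighborSet (e (Sum.inl w)) := by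
      rintro _ ⟨i, rfl⟩
      rw [SimpleGraph.mem_neighborSet, hG]
      simp only [Equiv.symm_apply_apply]
      rfl
    have hinj : Function.Injective (fun i : Fin m => e (Sum.inr i)) := by
      intro i j hij
      simpa using hij
    have h1 : (Set.range (fun i : Fin m => e (Sum.inr i))).ncard = m := by
      rw [← Set.image_univ, Set.ncard_image_of_injective _ hinj, Set.ncard_univ, Nat.card_eq_fintype_card,
        Fintype.card_fin]
    have h2 := Set.ncard_le_ncard hsub (Set.toFinite _)
    omega
  · refine lazyCopNumber_retract_le (fun x => Sum.elim id (fun _ => w) (e.symm x))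
      (fun x => e (Sum.inl x)) ?_ ?_ ?_
    · intro x y hxy
      rw [hG] at hxy
      rcases hx : e.symm x with a | a <;> rcases hy : e.symm y with b | b
      · rw [hx, hy] at hxy
        right
        exact hxy
      · rw [hx, hy] at hxy
        left
        exact hxy
      · rw [hx, hy] at hxy
        left
        exact Eq.symm hxy
      · rw [hx, hy] at hxy
        exact absurd hxy id
    · intro x y hxy
      rw [hG]
      simp only [Equiv.symm_apply_apply]
      exact hxy
    · intro x
      simp

end Pool.Agent.U448.LazyRetract
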