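import Mathlib
import Pool.Agent.U448.LazyRetract
import Pool.Agent.Results.MP_e22981_co.ExplicitAllDimensions

set_option autoImplicit false

/-!
# Hypercubes as graphs with few vertices and large lazy cop number
-/

namespace Pool.Agent.U448.LazyNum

open LazyCops

theorem hypercube_connected (n : ℕ) : (hypercube n).Connected := by
  classical
  have key : ∀ (d : ℕ) (x y : Fin n → Bool), hammingDist x y = d → (hypercube n).Reachable x y := by
    intro d
    induction d with
    | zero =>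
      intro x y h
      rw [hammingDist_eq_zero] at h
      rw [h]
    | succ d ih =>
      intro x y h
      have hne : x ≠ y := by
        rintro rfl
        simp at h
      obtain ⟨i, hi⟩ := Function.ne_iff.mp hne
      have h1 : hammingDist x (Function.update x i (y i)) = 1 := by
        unfold hammingDist
        rw [Finset.card_eq_one]
        refine ⟨i, ?_⟩
        ext j
        simp only [Finset.mem_filter, Finset.mem_univ, true_and, Finset.mem_singleton]
        constructor
        · intro hj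
          by_contra hji
          exact hj (by rw [Function.update_of_ne hji])
        · rintro rfl
          simpa using hi
      have h2 : hammingDist (Function.update x i (y i)) y = d := by
        have h3 : (Finset.univ.filter fun j => x j ≠ y j) =
            insert i (Finset.univ.filter fun j => Function.update x i (y i) j ≠ y j) := by
          ext j
          simp only [Finset.mem_filter, Finset.mem_univ, true_and, Finset.mem_insert]
          by_cases hj : j = i
          · subst hj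
            simpa using hi
          · simp [hj]
        have h4 : i ∉ (Finset.univ.filter fun j => Function.update x i (y i) j ≠ y j) := by
          simp
        have h5 : hammingDist x y = hammingDist (Function.update x i (y i)) y + 1 := by
          unfold hammingDist
          rw [h3, Finset.card_insert_of_notMem h4]
        omega
      exact (SimpleGraph.Adj.reachable (show (hypercube n).Adj x _ from h1)).trans (ih _ _ h2)
  have : Nonempty (Fin n → Bool) := ⟨fun _ => false⟩
  exact ⟨fun x y => key _ x y rfl⟩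

theorem exists_dim : ∃ C : ℝ, 0 < C ∧ ∀ k : ℕ, 2 ≤ k → ∃ d : ℕ,
    (2 : ℝ) ^ d ≤ C * (k * Real.log k ^ (3 / 2 : ℝ)) ∧ k < lazyCopNumber (hypercube d) := by
  obtain ⟨c, hc, hlow⟩ := Pool.Agent.Results.MP_e22981_co.ExplicitAllDimensions.lower_real
  obtain ⟨l2, hl2⟩ : ∃ l2 : ℝ, l2 = Real.log 2 := ⟨_, rfl⟩
  have hl2pos : 0 < l2 := by
    rw [hl2]
    exact Real.log_pos (by norm_num)
  have hl2lt : l2 < 1 := by
    have := Real.log_two_lt_d9
    rw [hl2]
    linarith
  have hl2gt : 1 / 2 < l2 := by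
    have := Real.log_two_gt_d9
    rw [hl2]
    linarith
  obtain ⟨E, hE⟩ : ∃ E : ℝ, E = (8 / l2 + 5 / 2) / l2 := ⟨_, rfl⟩
  have hEpos : 1 ≤ E := by
    rw [hE, le_div_iff₀ hl2pos]
    have : 0 < 8 / l2 := by positivity
    linarith
  obtain ⟨t, ht⟩ : ∃ t : ℝ, t = 2 * E ^ 2 / c + 2 := ⟨_, rfl⟩
  have htpos : 2 ≤ t := by
    have : 0 < 2 * E ^ 2 / c := by positivity
    rw [ht]
    linarith
  have ht1 : 1 ≤ t := by linarith
  obtain ⟨A, hA⟩ : ∃ A : ℝ, A = t ^ 8 := ⟨_, rfl⟩
  have hA2 : 2 ≤ A := by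
    rw [hA]
    exact htpos.trans (le_self_pow₀ ht1 (by norm_num))
  refine ⟨A, by linarith, fun k hk => ?_⟩
  have hkR : (2 : ℝ) ≤ k := by exact_mod_cast hk
  obtain ⟨L, hL⟩ : ∃ L : ℝ, L = Real.log k := ⟨_, rfl⟩
  rw [← hL]
  have hL2 : l2 ≤ L := by
    rw [hl2, hL]
    exact Real.log_le_log (by norm_num) hkR
  have hLpos : 0 < L := by linarith
  obtain ⟨x, hx⟩ : ∃ x : ℝ, x = A * (k * L ^ (3 / 2 : ℝ)) := ⟨_, rfl⟩
  rw [← hx]
  have hLp : 0 < L ^ (3 / 2 : ℝ) := Real.rpow_pos_of_pos hLpos _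
  have hxpos : 0 < x := by
    rw [hx]
    positivity
  have hLq : (1 / 4 : ℝ) ≤ L ^ (3 / 2 : ℝ) := by
    by_cases hL1 : 1 ≤ L
    · have := Real.one_le_rpow hL1 (show (0 : ℝ) ≤ 3 / 2 by norm_num)
      linarith
    · push Not at hL1
      have h2 : L ^ (2 : ℝ) ≤ L ^ (3 / 2 : ℝ) :=
        Real.rpow_le_rpow_of_exponent_ge hLpos hL1.le (by norm_num)
      have h3 : L ^ (2 : ℝ) = L ^ 2 := by
        rw [← Real.rpow_natCast]
        norm_num
      rw [h3] at h2
      have h4 : (1 / 2 : ℝ) * (1 / 2) ≤ L * L :=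
        mul_le_mul (by linarith) (by linarith) (by norm_num) hLpos.le
      rw [sq] at h2
      linarith
  have hA4 : (4 : ℝ) ≤ A := by
    have h1 : (2 : ℝ) ^ 2 ≤ t ^ 2 := pow_le_pow_left₀ (by norm_num) htpos 2
    have h2 : t ^ 2 ≤ t ^ 8 := pow_le_pow_right₀ ht1 (by norm_num)
    rw [hA]
    linarith
  have hx2 : 2 ≤ x := by
    have h6 : (2 : ℝ) * (1 / 4) ≤ k * L ^ (3 / 2 : ℝ) :=
      mul_le_mul hkR hLq (by norm_num) (by linarith)
    have h7 : (4 : ℝ) * (2 * (1 / 4)) ≤ A * (k * L ^ (3 / 2 : ℝ)) :=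
      mul_le_mul hA4 h6 (by norm_num) (by linarith)
    rw [hx]
    linarith
  have hx1 : 1 ≤ x := by linarith
  obtain ⟨d, hd⟩ : ∃ d : ℕ, d = ⌊Real.logb 2 x⌋₊ := ⟨_, rfl⟩
  have hlogb : 0 ≤ Real.logb 2 x := Real.logb_nonneg (by norm_num) hx1
  have hd1 : (2 : ℝ) ^ d ≤ x := by
    have h1 : (d : ℝ) ≤ Real.logb 2 x := by
      rw [hd]
      exact Nat.floor_le hlogb
    rw [Real.le_logb_iff_rpow_le (by norm_num) hxpos, Real.rpow_natCast] at h1
    exact h1
  have hd2 : x < 2 ^ (d + 1) := by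
    have h1 : Real.logb 2 x < ((d + 1 : ℕ) : ℝ) := by
      push_cast
      rw [hd]
      exact Nat.lt_floor_add_one _
    rw [Real.logb_lt_iff_lt_rpow (by norm_num) hxpos, Real.rpow_natCast] at h1
    exact h1
  refine ⟨d, hd1, ?_⟩
  -- upper bound for d
  have hlogx : Real.log x ≤ (Real.log A / l2 + 5 / 2) * L := by
    have h1 : Real.log x = Real.log A + (L + 3 / 2 * Real.log L) := by
      rw [hx, Real.log_mul (by positivity) (by positivity),
        Real.log_mul (by positivity) (by positivity), Real.log_rpow hLpos, ← hL]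
    have h2 : Real.log L ≤ L := (Real.log_le_sub_one_of_pos hLpos).trans (by linarith)
    have hAlog : 0 ≤ Real.log A := Real.log_nonneg (by linarith)
    have h3 : Real.log A ≤ Real.log A / l2 * L := by
      rw [div_mul_eq_mul_div, le_div_iff₀ hl2pos]
      exact mul_le_mul_of_nonneg_left hL2 hAlog
    rw [h1, add_mul]
    linarith
  have hlogA : Real.log A ≤ 8 * t := by
    rw [hA, Real.log_pow]
    have := Real.log_le_sub_one_of_pos (show 0 < t by linarith)
    push_cast
    linarith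
  have hdle : (d : ℝ) ≤ t * E * L := by
    have h1 : (d : ℝ) ≤ Real.logb 2 x := by
      rw [hd]
      exact Nat.floor_le hlogb
    have h2 : Real.logb 2 x ≤ t * E * L := by
      rw [Real.logb, ← hl2, div_le_iff₀ hl2pos]
      refine hlogx.trans ?_
      have h3 : Real.log A / l2 + 5 / 2 ≤ t * (8 / l2 + 5 / 2) := by
        have h4 : Real.log A / l2 ≤ 8 * t / l2 := by gcongr
        have h5 : 8 * t / l2 = t * (8 / l2) := by ring
        rw [mul_add]
        linarith
      have h6 : t * E * L * l2 = t * (8 / l2 + 5 / 2) * L := by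
        rw [hE]
        field_simp
      rw [h6]
      exact mul_le_mul_of_nonneg_right h3 hLpos.le
    exact h1.trans h2
  have hd0 : 1 ≤ d := by
    by_contra hcon
    have h0 : d = 0 := by omega
    rw [h0] at hd2
    norm_num at hd2
    linarith
  have hfinal := hlow d hd0
  have hdR : (1 : ℝ) ≤ d := by exact_mod_cast hd0
  have hdp : 0 < (d : ℝ) ^ (3 / 2 : ℝ) := Real.rpow_pos_of_pos (by linarith) _
  have hdpow : (d : ℝ) ^ (3 / 2 : ℝ) ≤ (t * E) ^ 2 * L ^ (3 / 2 : ℝ) := by
    have htE : 1 ≤ t * E := one_le_mul_of_one_le_of_one_le ht1 hEpos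
    calc (d : ℝ) ^ (3 / 2 : ℝ) ≤ (t * E * L) ^ (3 / 2 : ℝ) :=
          Real.rpow_le_rpow (by linarith) hdle (by norm_num)
      _ = (t * E) ^ (3 / 2 : ℝ) * L ^ (3 / 2 : ℝ) := by
          rw [Real.mul_rpow (by linarith) hLpos.le]
      _ ≤ (t * E) ^ (2 : ℝ) * L ^ (3 / 2 : ℝ) :=
          mul_le_mul_of_nonneg_right (Real.rpow_le_rpow_of_exponent_le htE (by norm_num)) hLp.le
      _ = (t * E) ^ 2 * L ^ (3 / 2 : ℝ) := by
          rw [← Real.rpow_natCast]
          norm_num
  have hkey : (k : ℝ) < c * (2 ^ d / (d : ℝ) ^ (3 / 2 : ℝ)) := by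
    rw [← mul_div_assoc, lt_div_iff₀ hdp]
    have h1 : x / 2 < 2 ^ d := by
      rw [pow_succ] at hd2
      linarith
    have h2 : (k : ℝ) * (d : ℝ) ^ (3 / 2 : ℝ) ≤ k * ((t * E) ^ 2 * L ^ (3 / 2 : ℝ)) := by gcongr
    have h3 : (k : ℝ) * ((t * E) ^ 2 * L ^ (3 / 2 : ℝ)) ≤ c * (x / 2) := by
      rw [hx, hA]
      have h4 : 2 * (t * E) ^ 2 ≤ c * t ^ 8 := by
        have h5 : 2 * E ^ 2 ≤ c * t := by
          rw [ht]
          have : c * (2 * E ^ 2 / c + 2) = 2 * E ^ 2 + 2 * c := by
            field_simp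
          rw [this]
          linarith
        have h6 : t ^ 3 ≤ t ^ 8 := pow_le_pow_right₀ ht1 (by norm_num)
        have h7 : c * t * t ^ 2 = c * t ^ 3 := by ring
        calc 2 * (t * E) ^ 2 = (2 * E ^ 2) * t ^ 2 := by ring
          _ ≤ (c * t) * t ^ 2 := by gcongr
          _ = c * t ^ 3 := by ring
          _ ≤ c * t ^ 8 := by gcongr
      have h8 : 0 ≤ (k : ℝ) * L ^ (3 / 2 : ℝ) := by positivity
      have h9 := mul_le_mul_of_nonneg_right h4 h8
      calc (k : ℝ) * ((t * E) ^ 2 * L ^ (3 / 2 : ℝ))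
          = (2 * (t * E) ^ 2 * (k * L ^ (3 / 2 : ℝ))) / 2 := by ring
        _ ≤ (c * t ^ 8 * (k * L ^ (3 / 2 : ℝ))) / 2 := by linarith
        _ = c * (t ^ 8 * (k * L ^ (3 / 2 : ℝ)) / 2) := by ring
    have h9 : c * (x / 2) < c * 2 ^ d := mul_lt_mul_of_pos_left h1 hc
    linarith
  have := hkey.trans_le hfinal
  exact_mod_cast this

end Pool.Agent.U448.LazyNum
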