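import Mathlib

/-!
# Plane graphs and light edges: definitions

A finite plane graph is given, as usual, by its rotation system: a simple graph together with the
cyclic order of the darts (oriented edges) around every vertex, subject to Euler's formula.
-/

set_option autoImplicit false

namespace Pool.Agent.U448.Light

/-- The permutation that reverses every dart (oriented edge) of a graph. -/
def rev {V : Type} (G : SimpleGraph V) : Equiv.Perm G.Dart :=
  SimpleGraph.Dart.symm_involutive.toPerm

/-- A finite plane graph with vertex set `V` (simple, possibly disconnected, no isolated vertices),
given by its rotation system. `rot d` is the dart that follows the dart `d` in the cyclic order of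
the darts that start at the first vertex of `d`; so the cycles of `rot` correspond to the vertices
(`rot_cycle`). If the dart `d` leads from `v` to `w` and `rot d` leads from `v` to `w'`, then
`rev (rot d)` leads from `w'` to `v` and is followed by `d` on the boundary walk of the face in the
corner between `d` and `rot d`; so the facial walks are the cycles of `rev * rot`. The rotation
system comes from a drawing in the plane if and only if every connected component of the graph
satisfies Euler's formula `V - E + F = 2`, where `F` counts the facial walks of the component; as
`V - E + F ≤ 2` holds for every component, this can be said as `V - E + F = 2 c` for the whole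
graph, where `c` is the number of the components (`euler`). -/
structure PlaneGraph (V : Type) [Fintype V] where
  /-- the underlying simple graph -/
  graph : SimpleGraph V
  /-- the next dart around the first vertex of a dart -/
  rot : Equiv.Perm graph.Dart
  /-- the cycles of `rot` are the sets of all darts that start at a given vertex -/
  rot_cycle : ∀ d e : graph.Dart, rot.SameCycle d e ↔ d.fst = e.fst
  /-- Euler's formula -/
  euler : Nat.card V + Nat.card (Quotient (Equiv.Perm.SameCycle.setoid (rev graph * rot))) =
    Nat.card graph.edgeSet + 2 * Nat.card graph.ConnectedComponent

namespace PlaneGraph

variable {V : Type} [Fintype V] (G : PlaneGraph V)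

/-- The degree of a vertex. -/
noncomputable def deg (v : V) : ℕ := Nat.card (G.graph.neighborSet v)

/-- The minimum degree of `G` is 5. -/
def MinDegreeFive : Prop := (∀ v, 5 ≤ G.deg v) ∧ ∃ v, G.deg v = 5

/-- `e i j` is the number of the edges of `G` with one end of degree `i` and the other of
degree `j`. -/
noncomputable def e (i j : ℕ) : ℕ :=
  Nat.card {e : Sym2 V // e ∈ G.graph.edgeSet ∧ ∃ u v, e = s(u, v) ∧ G.deg u = i ∧ G.deg v = j}

end PlaneGraph

end Pool.Agent.U448.Light
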