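import Pool.Agent.U448.LightUpper

/-!
# A plane triangulation with 25 vertices, `e_{5,5} = 24` and `e_{5,6} = 4`
-/

set_option autoImplicit false

namespace Pool.Agent.U448.Light

open Finset

namespace Example

/-- The neighbours of the vertices in their cyclic order. -/
def tab : List (List ℕ) :=
[[1, 2, 3, 4, 5, 6, 7],
 [0, 7, 8, 9, 2],
 [0, 1, 9, 10, 3],
 [0, 2, 10, 11, 4],
 [0, 3, 11, 12, 5],
 [0, 4, 12, 13, 6],
 [0, 5, 13, 14, 7],
 [0, 6, 14, 15, 16, 8, 1],
 [16, 17, 9, 1, 7],
 [8, 17, 18, 19, 10, 2, 1],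
 [2, 9, 19, 11, 3],
 [10, 19, 20, 21, 12, 4, 3],
 [4, 11, 21, 13, 5],
 [6, 5, 12, 21, 22, 23, 14],
 [6, 13, 23, 15, 7],
 [14, 23, 24, 16, 7],
 [15, 24, 17, 8, 7],
 [16, 24, 18, 9, 8],
 [17, 24, 20, 19, 9],
 [18, 20, 11, 10, 9],
 [18, 24, 22, 21, 11, 19],
 [13, 12, 11, 20, 22],
 [13, 21, 20, 24, 23],
 [14, 13, 22, 24, 15],
 [16, 15, 23, 22, 20, 18, 17]]

/-- row of the table -/
def row (u : Fin 25) : List ℕ := tab.getD u.val []

/-- membership, Boolean -/
def memb (v : ℕ) : List ℕ → Bool
  | [] => false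
  | a :: t => cond (Nat.beq a v) true (memb v t)

/-- adjacency, Boolean -/
def adjB (u v : Fin 25) : Bool := memb v.val (row u)

/-- the entry after `v`, cyclically -/
def nxAux (a0 : ℕ) : List ℕ → ℕ → ℕ
  | [], _ => a0
  | [_], _ => a0
  | x :: y :: t, v => cond (Nat.beq x v) y (nxAux a0 (y :: t) v)

/-- the neighbour of `u` after `v` -/
def nx (u v : Fin 25) : Fin 25 := Fin.ofNat 25 (nxAux ((row u).headD 0) (row u) v.val)

/-- the neighbour of `u` before `v` -/
def pv (u v : Fin 25) : Fin 25 :=
  Fin.ofNat 25 (nxAux ((row u).reverse.headD 0) (row u).reverse v.val)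

theorem adjB_symm : ∀ u v : Fin 25, adjB u v = true → adjB v u = true := by decide +kernel

theorem adjB_irrefl : ∀ u : Fin 25, adjB u u = false := by decide +kernel

theorem adj_nx : ∀ u v : Fin 25, adjB u v = true → adjB u (nx u v) = true := by decide +kernel

theorem adj_pv : ∀ u v : Fin 25, adjB u v = true → adjB u (pv u v) = true := by decide +kernel

theorem nx_pv : ∀ u v : Fin 25, adjB u v = true → nx u (pv u v) = v := by decide +kernel

theorem pv_nx : ∀ u v : Fin 25, adjB u v = true → pv u (nx u v) = v := by decide +kernel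

theorem face1 : ∀ u v : Fin 25, adjB u v = true → nx (nx u v) u = v := by decide +kernel

theorem face2 : ∀ u v : Fin 25, adjB u v = true → nx v (nx u v) = u := by decide +kernel

theorem cyc : ∀ u v : Fin 25, adjB u v = true → ∀ w : Fin 25, adjB u w = true →
    ∃ k : Fin 7, (nx u)^[k.val] v = w := by decide +kernel

theorem conn : ∀ v : Fin 25, v ≠ 0 → ∃ u : Fin 25, u < v ∧ adjB u v = true := by decide +kernel

/-- the graph -/
def gr : SimpleGraph (Fin 25) where
  Adj u v := adjB u v = true
  symm := ⟨fun u v h => adjB_symm u v h⟩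
  loopless := ⟨fun u h => by rw [adjB_irrefl u] at h; exact Bool.noConfusion h⟩

instance : DecidableRel gr.Adj := fun u v => inferInstanceAs (Decidable (adjB u v = true))

/-- the rotation -/
def rt : Equiv.Perm gr.Dart where
  toFun d := ⟨(d.fst, nx d.fst d.snd), adj_nx _ _ d.adj⟩
  invFun d := ⟨(d.fst, pv d.fst d.snd), adj_pv _ _ d.adj⟩
  left_inv d := SimpleGraph.Dart.ext _ _ (Prod.ext rfl (pv_nx _ _ d.adj))
  right_inv d := SimpleGraph.Dart.ext _ _ (Prod.ext rfl (nx_pv _ _ d.adj))

theorem rt_it (d : gr.Dart) (k : ℕ) :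
    ((rt : gr.Dart → gr.Dart)^[k] d).fst = d.fst ∧
      ((rt : gr.Dart → gr.Dart)^[k] d).snd = (nx d.fst)^[k] d.snd := by
  induction k with
  | zero => exact ⟨rfl, rfl⟩
  | succ k ih =>
    rw [Function.iterate_succ_apply', Function.iterate_succ_apply']
    refine ⟨ih.1, ?_⟩
    change nx ((rt : gr.Dart → gr.Dart)^[k] d).fst ((rt : gr.Dart → gr.Dart)^[k] d).snd = _
    rw [ih.1, ih.2]

theorem rt_cycle (d e : gr.Dart) : rt.SameCycle d e ↔ d.fst = e.fst := by
  constructor
  · intro h
    obtain ⟨n, rfl⟩ := h.exists_nat_pow_eq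
    rw [← Equiv.Perm.iterate_eq_pow]
    exact (rt_it d n).1.symm
  · intro h
    have he : adjB d.fst e.snd = true := by
      rw [h]
      exact e.adj
    obtain ⟨k, hk⟩ := cyc d.fst d.snd d.adj e.snd he
    refine ⟨k.val, ?_⟩
    rw [zpow_natCast, ← Equiv.Perm.iterate_eq_pow]
    refine SimpleGraph.Dart.ext _ _ (Prod.ext ?_ ?_)
    · exact (rt_it d k).1.trans h
    · exact (rt_it d k).2.trans hk

theorem psi3 (d : gr.Dart) : ((rev gr * rt : Equiv.Perm gr.Dart) : gr.Dart → gr.Dart)^[3] d = d := by
  refine SimpleGraph.Dart.ext _ _ (Prod.ext ?_ ?_)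
  · change nx (nx (nx d.fst d.snd) d.fst) (nx d.fst d.snd) = d.fst
    rw [face1 _ _ d.adj]
    exact face2 _ _ d.adj
  · change nx (nx d.fst d.snd) d.fst = d.snd
    exact face1 _ _ d.adj

theorem psi1 (d : gr.Dart) : (rev gr * rt) d ≠ d := by
  intro h
  have h1 : nx d.fst d.snd = d.fst := congrArg (fun x : gr.Dart => x.fst) h
  have h2 := adj_nx _ _ d.adj
  rw [h1, adjB_irrefl] at h2
  exact Bool.noConfusion h2

theorem period (d : gr.Dart) : Function.minimalPeriod (rev gr * rt : Equiv.Perm gr.Dart) d = 3 := by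
  have h1 : Function.IsPeriodicPt (rev gr * rt : Equiv.Perm gr.Dart) 3 d := psi3 d
  rcases (Nat.dvd_prime Nat.prime_three).1 h1.minimalPeriod_dvd with h | h
  · exact absurd (Function.minimalPeriod_eq_one_iff_isFixedPt.1 h) (psi1 d)
  · exact h

theorem darts : Fintype.card gr.Dart = 138 := by
  rw [gr.dart_card_eq_twice_card_edges, SimpleGraph.two_mul_card_edgeFinset]
  decide +kernel

theorem card_edges : Nat.card gr.edgeSet = 69 := by
  have h1 := gr.dart_card_eq_twice_card_edges
  rw [darts] at h1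
  rw [Nat.card_eq_fintype_card, ← SimpleGraph.edgeFinset_card]
  omega

theorem card_faces : Nat.card (Quotient (Equiv.Perm.SameCycle.setoid (rev gr * rt))) = 46 := by
  classical
  have h := card_quot_eq (Equiv.Perm.SameCycle.setoid (rev gr * rt)) (fun _ => (1 / 3 : ℚ)) (by
    intro d
    rw [Finset.sum_const, nsmul_eq_mul]
    have h2 := card_class (rev gr * rt) d
    rw [period] at h2
    have h3 : ((univ.filter fun x => (Equiv.Perm.SameCycle.setoid (rev gr * rt)) d x).card : ℚ)
        = 3 := by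
      have h4 : (univ.filter fun x => (Equiv.Perm.SameCycle.setoid (rev gr * rt)) d x).card = 3 := by
        refine Eq.trans (congrArg Finset.card ?_) h2
        ext x
        simp only [mem_filter, mem_univ, true_and]
        exact Iff.rfl
      rw [h4]
      norm_num
    rw [h3]
    norm_num)
  rw [Finset.sum_const, nsmul_eq_mul, Finset.card_univ] at h
  have h4 : (Fintype.card gr.Dart : ℚ) = (138 : ℕ) := congrArg _ darts
  rw [h4] at h
  have h5 : (Nat.card (Quotient (Equiv.Perm.SameCycle.setoid (rev gr * rt))) : ℚ) = (46 : ℕ) := by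
    rw [h]
    norm_num
  exact_mod_cast h5

theorem reach (v : Fin 25) : gr.Reachable 0 v := by
  obtain ⟨n, hn⟩ : ∃ n, v.val = n := ⟨_, rfl⟩
  induction n using Nat.strong_induction_on generalizing v with
  | _ n ih =>
    by_cases h : v = 0
    · rw [h]
    · obtain ⟨u, hu, huv⟩ := conn v h
      have h1 := ih u.val (by rw [← hn]; exact hu) u rfl
      exact h1.trans (SimpleGraph.Adj.reachable (show gr.Adj u v from huv))

theorem card_comp : Nat.card gr.ConnectedComponent = 1 := by
  rw [Nat.card_eq_one_iff_unique]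
  constructor
  · have : gr.Preconnected := fun u v => (reach u).symm.trans (reach v)
    exact this.subsingleton_connectedComponent
  · exact ⟨gr.connectedComponentMk 0⟩

/-- the plane graph -/
def G : PlaneGraph (Fin 25) where
  graph := gr
  rot := rt
  rot_cycle := rt_cycle
  euler := by
    rw [card_faces, card_edges, card_comp, Nat.card_eq_fintype_card, Fintype.card_fin]

theorem deg_G (v : Fin 25) : G.deg v = (row v).length := by
  have h : ∀ v : Fin 25, (univ.filter fun w => adjB v w = true).card = (row v).length := by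
    decide +kernel
  rw [← h v]
  change Nat.card (gr.neighborSet v) = _
  rw [Nat.card_eq_fintype_card, SimpleGraph.card_neighborSet_eq_degree]
  change (SimpleGraph.neighborFinset gr v).card = _
  congr 1
  ext w
  simp only [SimpleGraph.mem_neighborFinset, mem_filter, mem_univ, true_and]
  exact Iff.rfl

theorem minDeg : G.MinDegreeFive := by
  constructor
  · intro v
    rw [deg_G]
    revert v
    decide +kernel
  · refine ⟨1, ?_⟩
    rw [deg_G]
    rfl

open Classical in
theorem dd_eq (i j : ℕ) : G.dd i j =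
    (univ.filter fun p : Fin 25 × Fin 25 => adjB p.1 p.2 = true ∧
      (row p.1).length = i ∧ (row p.2).length = j).card := by
  unfold PlaneGraph.dd
  refine Finset.card_bij (fun d _ => d.toProd) ?_ ?_ ?_
  · intro d hd
    simp only [mem_filter, mem_univ, true_and, deg_G] at hd ⊢
    exact ⟨d.adj, hd⟩
  · intro d _ e _ h
    exact SimpleGraph.Dart.ext _ _ h
  · intro p hp
    simp only [mem_filter, mem_univ, true_and] at hp
    refine ⟨⟨p, hp.1⟩, ?_, rfl⟩
    simp only [mem_filter, mem_univ, true_and, deg_G]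
    exact hp.2

theorem e55 : G.e 5 5 = 24 := by
  have h := G.e55
  rw [dd_eq] at h
  have h2 : (univ.filter fun p : Fin 25 × Fin 25 => adjB p.1 p.2 = true ∧
      (row p.1).length = 5 ∧ (row p.2).length = 5).card = 48 := by decide +kernel
  have h3 : 48 = 2 * G.e 5 5 := by
    rw [← h, ← h2]
  omega

theorem e56 : G.e 5 6 = 4 := by
  have h := G.e56
  rw [dd_eq] at h
  have h2 : (univ.filter fun p : Fin 25 × Fin 25 => adjB p.1 p.2 = true ∧
      (row p.1).length = 5 ∧ (row p.2).length = 6).card = 4 := by decide +kernel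
  rw [← h, ← h2]

end Example

end Pool.Agent.U448.Light
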