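import Pool.Agent.U448.LightLocal

/-!
# The discharging at a vertex of degree 5
-/

set_option autoImplicit false

namespace Pool.Agent.U448.Light

open Lt

theorem tys_rot (w0 w1 w2 w3 w4 : Lt) : tys w1 w2 w3 w4 w0 = tys w0 w1 w2 w3 w4 := by
  unfold tys
  omega

theorem part_O {w0 w1 w2 w3 w4 : Lt} (h : Nat.beq (tys w0 w1 w2 w3 w4) 17 = false)
    (x0 x1 x3 x4 : Lt) : part w0 w1 w2 w3 w4 x0 x1 x3 x4 = part w0 w1 w2 w3 w4 O O O O := by
  unfold part tbl
  rw [h]
  rfl

theorem parts_le {w0 w1 w2 w3 w4 : Lt} (h : okw w0 w1 w2 w3 w4 = true) (x0 x1 x2 x3 x4 : Lt) :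
    parts w0 w1 w2 w3 w4 x0 x1 x2 x3 x4 ≤ 12 * k5 w0 w1 w2 w3 w4 := by
  rcases hb : Nat.beq (tys w0 w1 w2 w3 w4) 17 with _ | _
  · have h1 := chkC2_true
    unfold chkC2 at h1
    have h2 := allL_spec (allL_spec (allL_spec (allL_spec (allL_spec h1 w0) w1) w2) w3) w4
    have h3 := imp_spec h2 h
    have h4 := imp_spec h3 (by rw [hb]; rfl)
    have h5 := Nat.le_of_ble_eq_true h4
    refine le_trans (le_of_eq ?_) h5
    unfold parts
    have t1 := tys_rot w0 w1 w2 w3 w4
    have t2 := tys_rot w1 w2 w3 w4 w0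
    have t3 := tys_rot w2 w3 w4 w0 w1
    have t4 := tys_rot w3 w4 w0 w1 w2
    rw [part_O hb, part_O (w0 := w1) (w1 := w2) (w2 := w3) (w3 := w4) (w4 := w0) (by rw [t1, hb]),
      part_O (w0 := w2) (w1 := w3) (w2 := w4) (w3 := w0) (w4 := w1) (by rw [t2, t1, hb]),
      part_O (w0 := w3) (w1 := w4) (w2 := w0) (w3 := w1) (w4 := w2) (by rw [t3, t2, t1, hb]),
      part_O (w0 := w4) (w1 := w0) (w2 := w1) (w3 := w2) (w4 := w3) (by rw [t4, t3, t2, t1, hb])]
  · have h1 := chkC1_true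
    unfold chkC1 at h1
    have h2 := allL_spec (allL_spec (allL_spec (allL_spec (allL_spec h1 w0) w1) w2) w3) w4
    have h3 := imp_spec h2 h
    have h4 := imp_spec h3 hb
    have h5 := allL_spec (allL_spec (allL_spec (allL_spec (allL_spec h4 x0) x1) x2) x3) x4
    exact Nat.le_of_ble_eq_true h5

theorem fv_ge (X c : Lt) : 14 ≤ fv X c := by cases X <;> cases c <;> decide

theorem fv_le (X c : Lt) : fv X c ≤ 26 := by cases X <;> cases c <;> decide

theorem tbl_F {w1 w2 w3 w4 : Lt} (h : okw F w1 w2 w3 w4 = true) (x0 x1 x3 x4 : Lt) :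
    14 ≤ tbl F w1 w2 w3 w4 x0 x1 x3 x4 := by
  have h1 := chkM_true
  unfold chkM at h1
  have h2 := allL_spec (allL_spec (allL_spec (allL_spec (allL_spec h1 F) w1) w2) w3) w4
  have h3 := imp_spec h2 h
  simp only [Bool.and_eq_true] at h3
  have h4 := Nat.le_of_ble_eq_true (imp_spec h3.1 rfl)
  unfold tbl
  rcases hb : Nat.beq (tys F w1 w2 w3 w4) 17 with _ | _
  · rw [hb] at h4
    exact h4
  · change 14 ≤ cond w2.iS (fv x3 x1) (fv x1 x3)
    cases w2.iS
    · exact fv_ge _ _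
    · exact fv_ge _ _

theorem tbl_S {w1 w2 w3 w4 : Lt} (h : okw S w1 w2 w3 w4 = true) (x0 x1 x3 x4 : Lt) :
    3 ≤ tbl S w1 w2 w3 w4 x0 x1 x3 x4 := by
  have h1 := chkM_true
  unfold chkM at h1
  have h2 := allL_spec (allL_spec (allL_spec (allL_spec (allL_spec h1 S) w1) w2) w3) w4
  have h3 := imp_spec h2 h
  simp only [Bool.and_eq_true] at h3
  have h4 := Nat.le_of_ble_eq_true (imp_spec h3.2 rfl)
  unfold tbl
  rcases hb : Nat.beq (tys S w1 w2 w3 w4) 17 with _ | _
  · rw [hb] at h4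
    exact h4
  · change 3 ≤ cond w2.iF (36 - fv x3 x0) (36 - fv x1 x4)
    have a1 := fv_le x3 x0
    have a2 := fv_le x1 x4
    cases w2.iF
    · change 3 ≤ 36 - fv x1 x4
      omega
    · change 3 ≤ 36 - fv x3 x0
      omega

namespace LMap

variable {D : Type} (M : LMap D)

theorem share_F {g : D} (hg : M.dg g = 5) (h : M.W 0 g = F) : 14 ≤ M.share g := by
  unfold share
  split_ifs with hgood
  · have := M.okw_of hg hgood
    rw [h] at this ⊢
    exact tbl_F this _ _ _ _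
  · norm_num

theorem share_S {g : D} (hg : M.dg g = 5) (h : M.W 0 g = S) : 3 ≤ M.share g := by
  unfold share
  split_ifs with hgood
  · have := M.okw_of hg hgood
    rw [h] at this ⊢
    exact tbl_S this _ _ _ _
  · norm_num

theorem notD {g : D} (j : ℕ) (h : ¬ M.T (M.s^[j] g)) :
    ¬ (M.W j g).iD = true ∧ ¬ (M.W (j + 1) g).iD = true := by
  constructor
  · intro hd
    have h1 := M.dem_T hd
    have h2 := h1.2 6
    rw [← M.T_psi] at h2
    apply h
    have h3 : M.psi (M.s^[6] (M.r (M.s^[j] g))) = M.s^[j] g := by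
      unfold psi
      rw [← M.it_succ, M.per7 h1.1 0]
      exact M.rr _
    rw [h3] at h2
    exact h2
  · intro hd
    have h1 := M.dem_T hd
    have h2 := h1.2 0
    apply h
    rw [← M.T_psi]
    unfold psi
    rw [← M.it_succ]
    exact h2

/-- the part given along the dart `s^[j] g` -/
noncomputable def pt (j : ℕ) (g : D) : ℕ :=
  if (M.W j g).iD = true then M.share (M.s^[j] g) else 0

theorem pt_good {g : D} (hg : M.dg g = 5) (h : M.good g) (j : ℕ) :
    M.pt j g = part (M.W j g) (M.W (j + 1) g) (M.W (j + 2) g) (M.W (j + 3) g) (M.W (j + 4) g)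
      (M.X j g) (M.X (j + 1) g) (M.X (j + 3) g) (M.X (j + 4) g) := by
  unfold pt part share
  rw [if_pos ((M.good_it hg j).2 h)]
  simp only [M.W_it, M.X_it, Nat.zero_add]
  rw [show 1 + j = j + 1 by ring, show 2 + j = j + 2 by ring, show 3 + j = j + 3 by ring,
    show 4 + j = j + 4 by ring]
  rcases h : (M.W j g).iD with _ | _ <;> rfl

theorem pt_bad {g : D} (hg : M.dg g = 5) (h : ¬ M.good g) (j : ℕ) : M.pt j g ≤ 58 := by
  unfold pt share
  rw [if_neg (fun h' => h ((M.good_it hg j).1 h'))]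
  split_ifs <;> norm_num

theorem mod5 {g : D} (hg : M.dg g = 5) (j : ℕ) : M.s^[j] g = M.s^[j % 5] g := by
  have h2 : ∀ m i, M.s^[i + 5 * m] g = M.s^[i] g := by
    intro m i
    induction m with
    | zero => rfl
    | succ m ih => rw [show i + 5 * (m + 1) = i + 5 * m + 5 by ring, M.per5 hg, ih]
  conv_lhs => rw [← Nat.mod_add_div j 5]
  rw [h2]

open Classical in
/-- number of bad corners -/
noncomputable def bd (d : D) : ℕ := if M.T d then 0 else 1

/-- The conservation at a vertex of degree 5. -/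
theorem five {g : D} (hg : M.dg g = 5) :
    M.pt 0 g + M.pt 1 g + M.pt 2 g + M.pt 3 g + M.pt 4 g ≤
      12 * (c5 (M.W 0 g) + c5 (M.W 1 g) + c5 (M.W 2 g) + c5 (M.W 3 g) + c5 (M.W 4 g)) +
      175 * (M.bd (M.s^[0] g) + M.bd (M.s^[1] g) + M.bd (M.s^[2] g) + M.bd (M.s^[3] g) +
        M.bd (M.s^[4] g)) := by
  by_cases h : M.good g
  · have h1 := parts_le (M.okw_of hg h) (M.X 0 g) (M.X 1 g) (M.X 2 g) (M.X 3 g) (M.X 4 g)
    have e0 := M.pt_good hg h 0
    have e1 := M.pt_good hg h 1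
    have e2 := M.pt_good hg h 2
    have e3 := M.pt_good hg h 3
    have e4 := M.pt_good hg h 4
    have w0 : M.W 5 g = M.W 0 g := M.W_per hg 0
    have w1 : M.W 6 g = M.W 1 g := M.W_per hg 1
    have w2 : M.W 7 g = M.W 2 g := M.W_per hg 2
    have w3 : M.W 8 g = M.W 3 g := M.W_per hg 3
    have x0 : M.X 5 g = M.X 0 g := M.X_per hg 0
    have x1 : M.X 6 g = M.X 1 g := M.X_per hg 1
    have x2 : M.X 7 g = M.X 2 g := M.X_per hg 2
    have x3 : M.X 8 g = M.X 3 g := M.X_per hg 3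
    simp only [Nat.reduceAdd, w0, w1, w2, w3, x0, x1, x2, x3] at e0 e1 e2 e3 e4
    unfold parts k5 at h1
    rw [← e0, ← e1, ← e2, ← e3, ← e4] at h1
    omega
  · have hb : ∃ j, j < 5 ∧ ¬ M.T (M.s^[j] g) := by
      unfold good at h
      push Not at h
      obtain ⟨j, hj⟩ := h
      refine ⟨j % 5, Nat.mod_lt _ (by norm_num), ?_⟩
      rw [← M.mod5 hg]
      exact hj
    obtain ⟨j, hj5, hj⟩ := hb
    have b0 := M.pt_bad hg h 0
    have b1 := M.pt_bad hg h 1
    have b2 := M.pt_bad hg h 2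
    have b3 := M.pt_bad hg h 3
    have b4 := M.pt_bad hg h 4
    obtain ⟨n1, n2⟩ := M.notD j hj
    have z1 : M.pt j g = 0 := if_neg n1
    have z2 : M.pt ((j + 1) % 5) g = 0 := by
      unfold pt
      have : M.W ((j + 1) % 5) g = M.W (j + 1) g := by
        unfold W
        rw [← M.mod5 hg]
      rw [this, if_neg n2]
    have hbd : M.bd (M.s^[j] g) = 1 := if_neg hj
    interval_cases j <;> simp only [Nat.reduceAdd, Nat.reduceMod] at z1 z2 hbd <;> omega

end LMap

end Pool.Agent.U448.Light
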