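import Pool.Agent.U448.LightSum
import Pool.Agent.U448.LightDefs

/-!
# From plane graphs to rotation systems with degrees
-/

set_option autoImplicit false

namespace Pool.Agent.U448.Light

open Finset

section Perm

variable {D : Type} [Fintype D]

theorem per_pos (π : Equiv.Perm D) (d : D) : 0 < Function.minimalPeriod π d := by
  refine Function.minimalPeriod_pos_of_mem_periodicPts ?_
  exact Function.Injective.mem_periodicPts π.injective d

open Classical in
/-- The class of a point has as many elements as its period. -/
theorem card_class (π : Equiv.Perm D) (d : D) :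
    (univ.filter fun e => π.SameCycle d e).card = Function.minimalPeriod π d := by
  have h : (univ.filter fun e => π.SameCycle d e) =
      (range (Function.minimalPeriod π d)).image fun i => (π : D → D)^[i] d := by
    ext e
    simp only [mem_filter, mem_univ, true_and, mem_image, mem_range]
    constructor
    · intro h
      obtain ⟨n, hn⟩ := h.exists_nat_pow_eq
      refine ⟨n % Function.minimalPeriod π d, Nat.mod_lt _ (per_pos π d), ?_⟩
      rw [Function.iterate_mod_minimalPeriod_eq, Equiv.Perm.iterate_eq_pow, hn]
    · rintro ⟨i, _, rfl⟩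
      rw [Equiv.Perm.iterate_eq_pow]
      exact ⟨i, by simp⟩
  rw [h, Finset.card_image_of_injOn, card_range]
  intro a ha b hb hab
  simp only [coe_range, Set.mem_Iio] at ha hb
  exact Function.iterate_injOn_Iio_minimalPeriod ha hb hab

open Classical in
/-- Counting the classes with weights. -/
theorem sum_quot (r : Setoid D) (w : D → ℚ) :
    ∑ d, w d = ∑ q : Quotient r, ∑ d with (Quotient.mk r d) = q, w d :=
  (Finset.sum_fiberwise _ _ _).symm

open Classical in
theorem card_quot_le (r : Setoid D) (w : D → ℚ) (h : ∀ d, 1 ≤ ∑ x with r d x, w x) :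
    (Nat.card (Quotient r) : ℚ) ≤ ∑ d, w d := by
  rw [sum_quot r w, Nat.card_eq_fintype_card, ← Finset.card_univ, Finset.cast_card]
  refine Finset.sum_le_sum fun q _ => ?_
  obtain ⟨d, rfl⟩ := Quotient.exists_rep q
  refine le_trans (h d) (le_of_eq ?_)
  refine Finset.sum_congr ?_ fun _ _ => rfl
  ext x
  simp only [mem_filter, mem_univ, true_and]
  rw [Quotient.eq]
  exact ⟨fun h => Setoid.symm h, fun h => Setoid.symm h⟩

open Classical in
theorem card_quot_eq (r : Setoid D) (w : D → ℚ) (h : ∀ d, ∑ x with r d x, w x = 1) :
    (Nat.card (Quotient r) : ℚ) = ∑ d, w d := by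
  rw [sum_quot r w, Nat.card_eq_fintype_card, ← Finset.card_univ, Finset.cast_card]
  refine Finset.sum_congr rfl fun q _ => ?_
  obtain ⟨d, rfl⟩ := Quotient.exists_rep q
  refine (Eq.trans ?_ (h d)).symm
  refine Finset.sum_congr ?_ fun _ _ => rfl
  ext x
  simp only [mem_filter, mem_univ, true_and]
  rw [Quotient.eq]
  exact ⟨fun h => Setoid.symm h, fun h => Setoid.symm h⟩

end Perm

namespace PlaneGraph

variable {V : Type} [Fintype V] (G : PlaneGraph V)

theorem fst_rot (d : G.graph.Dart) : (G.rot d).fst = d.fst :=
  (G.rot_cycle _ _).1 ⟨-1, by simp⟩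

open Classical in
noncomputable instance : Fintype G.graph.Dart := inferInstance

open Classical in
theorem deg_eq (v : V) : G.deg v = G.graph.degree v := by
  unfold deg
  rw [Nat.card_eq_fintype_card, SimpleGraph.card_neighborSet_eq_degree]

open Classical in
theorem card_fst (v : V) : (univ.filter fun d : G.graph.Dart => d.fst = v).card = G.deg v := by
  rw [G.deg_eq]
  convert G.graph.dart_fst_fiber_card_eq_degree v

open Classical in
theorem period_rot (d : G.graph.Dart) : Function.minimalPeriod G.rot d = G.deg d.fst := by
  rw [← card_class, ← G.card_fst]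
  congr 1
  ext e
  simp only [mem_filter, mem_univ, true_and]
  rw [G.rot_cycle]
  exact ⟨fun h => h.symm, fun h => h.symm⟩

/-- The rotation system with degrees. -/
noncomputable def toLMap : LMap G.graph.Dart where
  s := G.rot
  r := rev G.graph
  dg d := G.deg d.fst
  rr d := SimpleGraph.Dart.symm_symm d
  dg_s d := by rw [G.fst_rot]
  per d := by
    rw [← G.period_rot]
    exact Function.iterate_minimalPeriod

end PlaneGraph

end Pool.Agent.U448.Light
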