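import Pool.Agent.U448.LightTable

/-!
# Local analysis of the discharging
-/

set_option autoImplicit false

namespace Pool.Agent.U448.Light

open Lt

/-- A rotation system with degrees: `s` is the rotation, `r` reverses darts, `dg d` is the degree
of the vertex of `d`. -/
structure LMap (D : Type) where
  s : Equiv.Perm D
  r : Equiv.Perm D
  dg : D → ℕ
  rr : ∀ d, r (r d) = d
  dg_s : ∀ d, dg (s d) = dg d
  per : ∀ d, s^[dg d] d = d

namespace LMap

variable {D : Type} (M : LMap D)

/-- the next dart on the face -/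
def psi (e : D) : D := M.r (M.s e)

theorem psi_inj : Function.Injective M.psi := fun a b h => M.s.injective (M.r.injective h)

/-- the corner between `e` and `s e` is in a triangle -/
def T (e : D) : Prop := M.psi (M.psi (M.psi e)) = e

theorem T_psi (e : D) : M.T (M.psi e) ↔ M.T e :=
  ⟨fun h => M.psi_inj h, fun h => congrArg M.psi h⟩

theorem it_succ (i : ℕ) (d : D) : M.s^[i + 1] d = M.s (M.s^[i] d) :=
  Function.iterate_succ_apply' _ _ _

theorem it_add (i j : ℕ) (d : D) : M.s^[i] (M.s^[j] d) = M.s^[i + j] d :=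
  (Function.iterate_add_apply _ _ _ _).symm

theorem dg_it (i : ℕ) (d : D) : M.dg (M.s^[i] d) = M.dg d := by
  induction i with
  | zero => rfl
  | succ i ih => rw [it_succ, M.dg_s, ih]

theorem per5 {d : D} (h : M.dg d = 5) (i : ℕ) : M.s^[i + 5] d = M.s^[i] d := by
  rw [← M.it_add i 5 d]
  have := M.per d
  rw [h] at this
  rw [this]

theorem per7 {d : D} (h : M.dg d = 7) (i : ℕ) : M.s^[i + 7] d = M.s^[i] d := by
  rw [← M.it_add i 7 d]
  have := M.per d
  rw [h] at this
  rw [this]

/-- the dart `d` starts at an `F`-vertex -/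
def isF (d : D) : Prop := M.dg d = 7 ∧ ∀ i, M.dg (M.r (M.s^[i] d)) = 5 ∧ M.T (M.s^[i] d)

/-- the dart `d` starts at an `S`-vertex -/
def isS (d : D) : Prop := M.dg d = 7 ∧ (∀ i, M.T (M.s^[i] d)) ∧
  ∃ k, M.dg (M.r (M.s^[k] d)) ≠ 5 ∧ ∀ i, M.dg (M.r (M.s^[i] d)) ≠ 5 → i % 7 = k % 7

theorem isF_s (d : D) : M.isF (M.s d) ↔ M.isF d := by
  constructor
  · rintro ⟨h1, h2⟩
    rw [M.dg_s] at h1
    refine ⟨h1, fun i => ?_⟩
    have h := h2 (i + 6)
    rw [← Function.iterate_succ_apply, show (i + 6).succ = i + 7 from rfl, M.per7 h1] at h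
    exact h
  · rintro ⟨h1, h2⟩
    refine ⟨by rw [M.dg_s]; exact h1, fun i => ?_⟩
    rw [← Function.iterate_succ_apply]
    exact h2 _

theorem isS_s (d : D) : M.isS (M.s d) ↔ M.isS d := by
  constructor
  · rintro ⟨h1, h2, k, h3, h4⟩
    rw [M.dg_s] at h1
    refine ⟨h1, fun i => ?_, k + 1, ?_, fun i hi => ?_⟩
    · have h := h2 (i + 6)
      rw [← Function.iterate_succ_apply, show (i + 6).succ = i + 7 from rfl, M.per7 h1] at h
      exact h
    · rw [← Function.iterate_succ_apply] at h3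
      exact h3
    · have h := h4 (i + 6)
      rw [← Function.iterate_succ_apply, show (i + 6).succ = i + 7 from rfl, M.per7 h1] at h
      have := h hi
      omega
  · rintro ⟨h1, h2, k, h3, h4⟩
    refine ⟨by rw [M.dg_s]; exact h1, fun i => ?_, k + 6, ?_, fun i hi => ?_⟩
    · rw [← Function.iterate_succ_apply]
      exact h2 _
    · rw [← Function.iterate_succ_apply, show (k + 6).succ = k + 7 from rfl, M.per7 h1]
      exact h3
    · rw [← Function.iterate_succ_apply] at hi
      have := h4 _ hi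
      simp only [Nat.succ_eq_add_one] at this
      omega

open Classical in
/-- the letter of the vertex of the dart `d` -/
noncomputable def L (d : D) : Lt :=
  if M.dg d = 5 then a5 else if M.isF d then F else if M.isS d then S else O

theorem L_s (d : D) : M.L (M.s d) = M.L d := by
  unfold L
  rw [M.dg_s, M.isF_s, M.isS_s]

theorem L_it (i : ℕ) (d : D) : M.L (M.s^[i] d) = M.L d := by
  induction i with
  | zero => rfl
  | succ i ih => rw [it_succ, M.L_s, ih]

theorem L_a5 {d : D} : M.L d = a5 ↔ M.dg d = 5 := by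
  unfold L
  split_ifs with h1 h2 h3 <;> simp_all

theorem L_F {d : D} : M.L d = F ↔ M.isF d := by
  unfold L
  split_ifs with h1 h2 h3
  · simp only [reduceCtorEq, false_iff]
    intro h
    rw [h.1] at h1
    omega
  · simp [h2]
  · simp [h2]
  · simp [h2]

theorem L_S {d : D} : M.L d = S ↔ M.isS d := by
  unfold L
  split_ifs with h1 h2 h3
  · simp only [reduceCtorEq, false_iff]
    intro h
    rw [h.1] at h1
    omega
  · simp only [reduceCtorEq, false_iff]
    rintro ⟨_, _, k, h3, _⟩
    exact h3 (h2.2 k).1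
  · simp [h3]
  · simp [h3]

/-- facts about a demanding vertex -/
theorem dem_T {d : D} (h : (M.L d).iD = true) : M.dg d = 7 ∧ ∀ i, M.T (M.s^[i] d) := by
  rcases hl : M.L d with _ | _ | _ | _
  · rw [hl] at h; simp [iD] at h
  · have := M.L_F.1 hl
    exact ⟨this.1, fun i => (this.2 i).2⟩
  · have := M.L_S.1 hl
    exact ⟨this.1, this.2.1⟩
  · rw [hl] at h; simp [iD] at h

/-- all corners at the vertex of `g` are in triangles -/
def good (g : D) : Prop := ∀ j, M.T (M.s^[j] g)

theorem good_it {g : D} (hg : M.dg g = 5) (i : ℕ) : M.good (M.s^[i] g) ↔ M.good g := by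
  constructor
  · intro h j
    have h1 := h (j + 4 * i)
    rw [M.it_add] at h1
    have h2 : ∀ m, M.s^[j + 5 * m] g = M.s^[j] g := by
      intro m
      induction m with
      | zero => rfl
      | succ m ih => rw [show j + 5 * (m + 1) = j + 5 * m + 5 by ring, M.per5 hg, ih]
    rw [show j + 4 * i + i = j + 5 * i by ring, h2] at h1
    exact h1
  · intro h j
    rw [M.it_add]
    exact h _

/-- the letters of the neighbours -/
noncomputable def W (j : ℕ) (g : D) : Lt := M.L (M.r (M.s^[j] g))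

open Classical in
/-- the letter of the vertex across the edge of the neighbours `j` and `j + 1` -/
noncomputable def X (j : ℕ) (g : D) : Lt :=
  if M.T (M.s (M.r (M.s^[j + 1] g))) then M.L (M.r (M.s (M.s (M.r (M.s^[j + 1] g))))) else O

open Classical in
/-- the share given along the dart `g` -/
noncomputable def share (g : D) : ℕ :=
  if M.good g then
    tbl (M.W 0 g) (M.W 1 g) (M.W 2 g) (M.W 3 g) (M.W 4 g) (M.X 0 g) (M.X 1 g) (M.X 3 g) (M.X 4 g)
  else 58

theorem W_it (i j : ℕ) (g : D) : M.W i (M.s^[j] g) = M.W (i + j) g := by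
  unfold W
  rw [M.it_add]

theorem X_it (i j : ℕ) (g : D) : M.X i (M.s^[j] g) = M.X (i + j) g := by
  unfold X
  rw [M.it_add, show i + 1 + j = i + j + 1 by ring]

theorem W_per {g : D} (hg : M.dg g = 5) (i : ℕ) : M.W (i + 5) g = M.W i g := by
  unfold W
  rw [M.per5 hg]

theorem X_per {g : D} (hg : M.dg g = 5) (i : ℕ) : M.X (i + 5) g = M.X i g := by
  unfold X
  rw [show i + 5 + 1 = i + 1 + 5 by ring, M.per5 hg]

/-- The neighbours of a neighbour in the link: previous one. -/
theorem link_prev {g : D} (j : ℕ) (hT : M.T (M.s^[j] g)) :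
    M.s (M.r (M.s (M.r (M.s^[j + 1] g)))) = M.r (M.s^[j] g) := by
  unfold T psi at hT
  rw [← M.it_succ] at hT
  have := congrArg M.r hT
  rw [M.rr] at this
  exact this

theorem link_prev_L {g : D} (j : ℕ) (hT : M.T (M.s^[j] g)) :
    M.L (M.r (M.s (M.r (M.s^[j + 1] g)))) = M.W j g := by
  rw [← M.L_s, M.link_prev j hT]
  rfl

/-- next one, if the neighbour is a vertex of degree 7 -/
theorem link_next {g : D} (j : ℕ) (hT : M.T (M.s^[j] g)) (h7 : M.dg (M.r (M.s^[j] g)) = 7) :
    M.r (M.s^[6] (M.r (M.s^[j] g))) = M.s (M.r (M.s^[j + 1] g)) := by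
  have h := M.link_prev j hT
  have h2 : M.s (M.s^[6] (M.r (M.s^[j] g))) = M.r (M.s^[j] g) := by
    rw [← M.it_succ]
    exact M.per7 h7 0
  rw [← h2] at h
  have h3 := M.s.injective h
  rw [← h3, M.rr]

theorem link_next_L {g : D} (j : ℕ) (hT : M.T (M.s^[j] g)) (h7 : M.dg (M.r (M.s^[j] g)) = 7) :
    M.L (M.r (M.s^[6] (M.r (M.s^[j] g)))) = M.W (j + 1) g := by
  rw [M.link_next j hT h7, M.L_s]
  rfl

/-- Three consecutive neighbours of a vertex form an admissible triple. -/
theorem link_ok {g : D} (j : ℕ) (hT : M.T (M.s^[j] g)) (hT' : M.T (M.s^[j + 1] g)) :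
    ok3 (M.W j g) (M.W (j + 1) g) (M.W (j + 2) g) = true := by
  rcases hl : M.W (j + 1) g with _ | _ | _ | _
  · rfl
  · have h := M.L_F.1 hl
    have h1 := M.link_prev_L j hT
    have h2 := M.link_next_L (j + 1) hT' h.1
    have h3 := M.L_a5.2 (h.2 1).1
    have h4 := M.L_a5.2 (h.2 6).1
    change M.L (M.r (M.s (M.r (M.s^[j + 1] g)))) = a5 at h3
    rw [h1] at h3
    rw [h2] at h4
    rw [h3, h4]
    rfl
  · have h := M.L_S.1 hl
    have h1 := M.link_prev_L j hT
    have h2 := M.link_next_L (j + 1) hT' h.1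
    obtain ⟨k, hk, hk'⟩ := h.2.2
    by_cases ha : M.dg (M.r (M.s^[1] (M.r (M.s^[j + 1] g)))) = 5
    · have h3 := M.L_a5.2 ha
      change M.L (M.r (M.s (M.r (M.s^[j + 1] g)))) = a5 at h3
      rw [h1] at h3
      rw [h3]
      rfl
    · by_cases hb : M.dg (M.r (M.s^[6] (M.r (M.s^[j + 1] g)))) = 5
      · have h3 := M.L_a5.2 hb
        rw [h2] at h3
        rw [h3]
        unfold ok3
        cases M.W j g <;> rfl
      · have e1 := hk' _ ha
        have e2 := hk' _ hb
        omega
  · rfl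

theorem okw_of {g : D} (hg : M.dg g = 5) (h : M.good g) :
    okw (M.W 0 g) (M.W 1 g) (M.W 2 g) (M.W 3 g) (M.W 4 g) = true := by
  unfold okw
  have e5 : M.W 5 g = M.W 0 g := M.W_per hg 0
  have e6 : M.W 6 g = M.W 1 g := M.W_per hg 1
  have h0 := M.link_ok 4 (h _) (h _)
  have h1 := M.link_ok 0 (h _) (h _)
  have h2 := M.link_ok 1 (h _) (h _)
  have h3 := M.link_ok 2 (h _) (h _)
  have h4 := M.link_ok 3 (h _) (h _)
  simp only [Nat.reduceAdd, e5, e6] at h0 h1 h2 h3 h4
  rw [h0, h1, h2, h3, h4]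
  rfl

end LMap

end Pool.Agent.U448.Light
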