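import Pool.Agent.U448.LightFive

/-!
# The discharging at a vertex of degree 7
-/

set_option autoImplicit false

namespace Pool.Agent.U448.Light

open Lt

namespace LMap

variable {D : Type} (M : LMap D)

/-- the reversed darts at the vertex of `d` -/
def nb (d : D) (i : ℕ) : D := M.r (M.s^[i] d)

theorem nb_per {d : D} (h : M.dg d = 7) (i : ℕ) : M.nb d (i + 7) = M.nb d i := by
  unfold nb
  rw [M.per7 h]

theorem W_nb (d : D) (i : ℕ) : M.W i d = M.L (M.nb d i) := rfl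

/-- the letters of the outer ring -/
noncomputable def Z (d : D) (i : ℕ) : Lt := M.W 2 (M.nb d (i + 1))

theorem Z_per {d : D} (h : M.dg d = 7) (i : ℕ) : M.Z d (i + 7) = M.Z d i := by
  unfold Z
  rw [show i + 7 + 1 = i + 1 + 7 by ring, M.nb_per h]

variable {M}
variable {d : D} (hT : ∀ i, M.T (M.s^[i] d))

theorem W0 (i : ℕ) : M.W 0 (M.nb d i) = M.L d := by
  unfold W nb
  change M.L (M.r (M.r _)) = _
  rw [M.rr, M.L_it]

include hT

theorem R1 (i : ℕ) : M.s (M.r (M.s (M.nb d (i + 1)))) = M.nb d i := M.link_prev i (hT i)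

theorem W1 (i : ℕ) : M.W 1 (M.nb d (i + 1)) = M.W i d := M.link_prev_L i (hT i)

theorem R4 {i : ℕ} (h5 : M.dg (M.nb d i) = 5) :
    M.r (M.s^[4] (M.nb d i)) = M.s (M.nb d (i + 1)) := by
  have h1 := R1 hT i
  have h2 : M.s (M.s^[4] (M.nb d i)) = M.nb d i := by
    rw [← M.it_succ]
    exact M.per5 h5 0
  have h3 : M.s (M.r (M.s (M.nb d (i + 1)))) = M.s (M.s^[4] (M.nb d i)) := by rw [h1, h2]
  have h4 := M.s.injective h3
  rw [← h4, M.rr]

theorem W4 {i : ℕ} (h5 : M.dg (M.nb d i) = 5) : M.W 4 (M.nb d i) = M.W (i + 1) d := by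
  unfold W
  rw [R4 hT h5, M.L_s]
  rfl

theorem W3 {i : ℕ} (h5 : M.dg (M.nb d i) = 5) (hg : M.good (M.nb d i)) :
    M.W 3 (M.nb d i) = M.Z d i := by
  have h1 := M.link_prev_L 3 (hg 3)
  rw [← h1, R4 hT h5]
  rfl

theorem X0 (i : ℕ) : M.X 0 (M.nb d (i + 2)) = M.W i d := by
  unfold X
  have h1 : M.s (M.r (M.s^[0 + 1] (M.nb d (i + 2)))) = M.nb d (i + 1) := R1 hT (i + 1)
  have h2 : M.T (M.nb d (i + 1)) := by
    have := (M.T_psi (M.s^[i] d)).2 (hT i)
    unfold psi at this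
    rw [← M.it_succ] at this
    exact this
  rw [h1, if_pos h2]
  exact W1 hT i

theorem X4 {i : ℕ} (h5 : M.dg (M.nb d i) = 5) : M.X 4 (M.nb d i) = M.W (i + 2) d := by
  unfold X
  have h1 : M.s^[4 + 1] (M.nb d i) = M.nb d i := M.per5 h5 0
  have h2 : M.s (M.r (M.nb d i)) = M.s^[i + 1] d := by
    unfold nb
    rw [M.rr, ← M.it_succ]
  rw [h1, h2, if_pos (hT _), ← M.it_succ]
  rfl

theorem Y1 {i : ℕ} (h5 : M.dg (M.nb d (i + 1)) = 5) (hg : M.good (M.nb d (i + 1)))
    (hg2 : M.good (M.nb d (i + 2))) :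
    M.T (M.s (M.r (M.s^[2] (M.nb d (i + 2))))) ∧
      M.L (M.r (M.s (M.s (M.r (M.s^[2] (M.nb d (i + 2))))))) = M.Z d i := by
  have h1 := M.link_prev 1 (hg2 1)
  have h2 := R4 hT h5
  have h3 : M.r (M.s^[1] (M.nb d (i + 2))) = M.s^[4] (M.nb d (i + 1)) := by
    change M.r (M.s (M.nb d (i + 1 + 1))) = _
    rw [← h2, M.rr]
  rw [h3] at h1
  have h4 : M.r (M.s (M.r (M.s^[2] (M.nb d (i + 2))))) = M.s^[3] (M.nb d (i + 1)) :=
    M.s.injective (h1.trans (M.it_succ 3 _))
  have h5 : M.s (M.r (M.s^[2] (M.nb d (i + 2)))) = M.r (M.s^[3] (M.nb d (i + 1))) := by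
    rw [← h4, M.rr]
  rw [h5]
  constructor
  · have := (M.T_psi (M.s^[2] (M.nb d (i + 1)))).2 (hg 2)
    unfold psi at this
    rw [← M.it_succ] at this
    exact this
  · exact M.link_prev_L 2 (hg 2)

theorem X1 {i : ℕ} (h5 : M.dg (M.nb d (i + 1)) = 5) (hg : M.good (M.nb d (i + 1)))
    (hg2 : M.good (M.nb d (i + 2))) : M.X 1 (M.nb d (i + 2)) = M.Z d i := by
  have h := Y1 hT h5 hg hg2
  unfold X
  rw [if_pos h.1]
  exact h.2

theorem X3 {i : ℕ} (h5 : M.dg (M.nb d i) = 5) (h5' : M.dg (M.nb d (i + 1)) = 5)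
    (hg' : M.good (M.nb d (i + 1))) : M.X 3 (M.nb d i) = M.Z d (i + 1) := by
  have h1 : M.s (M.r (M.s^[3 + 1] (M.nb d i))) = M.s^[2] (M.nb d (i + 1)) := by
    change M.s (M.r (M.s^[4] (M.nb d i))) = _
    rw [R4 hT h5]
    rfl
  unfold X
  rw [h1, if_pos (hg' 2), ← M.it_succ]
  exact W3 hT h5' hg'

/-- Three consecutive vertices of the outer ring form an admissible triple. -/
theorem ring_ok {i : ℕ} (h5 : M.dg (M.nb d (i + 1)) = 5) (hg : M.good (M.nb d (i + 1)))
    (h5' : M.dg (M.nb d (i + 2)) = 5) (hg' : M.good (M.nb d (i + 2))) :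
    ok3 (M.Z d i) (M.Z d (i + 1)) (M.Z d (i + 2)) = true := by
  have a1 := M.link_ok (g := M.nb d (i + 1)) 2 (hg _) (hg _)
  have a2 := M.link_ok (g := M.nb d (i + 2)) 1 (hg' _) (hg' _)
  simp only [Nat.reduceAdd] at a1 a2
  rw [W3 hT h5 hg] at a1
  rw [W3 hT h5' hg'] at a2
  change ok3 (M.Z d i) (M.Z d (i + 1)) _ = true at a1
  change ok3 _ (M.Z d (i + 1)) (M.Z d (i + 2)) = true at a2
  rcases hz : M.Z d (i + 1) with _ | _ | _ | _
  · rfl
  · rw [hz] at a1 a2
    unfold ok3 at a1 a2 ⊢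
    simp only [Bool.and_eq_true] at a1 a2 ⊢
    exact ⟨a1.1, a2.2⟩
  · have hS := M.L_S.1 (show M.L (M.r (M.s^[2] (M.nb d (i + 2)))) = S from hz)
    obtain ⟨k, hk, hk'⟩ := hS.2.2
    have b1 := (Y1 hT h5 hg hg').2
    have b2 := M.link_next_L (g := M.nb d (i + 2)) 2 (hg' 2) hS.1
    simp only [Nat.reduceAdd] at b2
    rw [W3 hT h5' hg'] at b2
    by_cases c1 : M.dg (M.r (M.s^[2] (M.r (M.s^[2] (M.nb d (i + 2)))))) = 5
    · have := M.L_a5.2 c1
      change M.L (M.r (M.s (M.s (M.r (M.s^[2] (M.nb d (i + 2))))))) = a5 at this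
      rw [b1] at this
      rw [this]
      rfl
    · by_cases c2 : M.dg (M.r (M.s^[6] (M.r (M.s^[2] (M.nb d (i + 2)))))) = 5
      · have := M.L_a5.2 c2
        rw [b2] at this
        rw [this]
        unfold ok3
        cases M.Z d i <;> rfl
      · have e1 := hk' _ c1
        have e2 := hk' _ c2
        omega
  · rfl

/-- The share of an inner vertex. -/
theorem share_eq {i : ℕ} (h1 : M.dg (M.nb d (i + 1)) = 5) (g1 : M.good (M.nb d (i + 1)))
    (h2 : M.dg (M.nb d (i + 2)) = 5) (g2 : M.good (M.nb d (i + 2)))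
    (h3 : M.dg (M.nb d (i + 3)) = 5) (g3 : M.good (M.nb d (i + 3))) :
    M.share (M.nb d (i + 2)) = tbl (M.L d) a5 (M.Z d (i + 1)) (M.Z d (i + 2)) a5 (M.W i d)
      (M.Z d i) (M.Z d (i + 3)) (M.W (i + 4) d) := by
  unfold share
  rw [if_pos g2, W0, W1 hT, W3 hT h2 g2, W4 hT h2, X0 hT, X4 hT h2, X1 hT h1 g1 g2,
    X3 hT h2 h3 g3, M.W_nb d (i + 1), M.W_nb d (i + 2 + 1), M.L_a5.2 h1,
    show i + 2 + 1 = i + 3 by ring, M.L_a5.2 h3]
  rfl

omit hT

/-- The discharging at an `F`-vertex. -/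
theorem seven_F (hF : M.L d = F) :
    140 ≤ M.share (M.nb d 0) + M.share (M.nb d 1) + M.share (M.nb d 2) + M.share (M.nb d 3) +
      M.share (M.nb d 4) + M.share (M.nb d 5) + M.share (M.nb d 6) := by
  have hF' := M.L_F.1 hF
  have h7 := hF'.1
  have hT : ∀ i, M.T (M.s^[i] d) := fun i => (hF'.2 i).2
  have h5 : ∀ i, M.dg (M.nb d i) = 5 := fun i => (hF'.2 i).1
  have hW : ∀ i, M.W i d = a5 := fun i => M.L_a5.2 (h5 i)
  by_cases hg : ∀ i, M.good (M.nb d i)
  · have hs : ∀ i, M.share (M.nb d (i + 2)) =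
        sF (M.Z d i) (M.Z d (i + 1)) (M.Z d (i + 2)) (M.Z d (i + 3)) := by
      intro i
      rw [share_eq hT (h5 _) (hg _) (h5 _) (hg _) (h5 _) (hg _), hF, hW, hW]
      rfl
    have hr : ∀ i, ok3 (M.Z d i) (M.Z d (i + 1)) (M.Z d (i + 2)) = true := fun i =>
      ring_ok hT (h5 _) (hg _) (h5 _) (hg _)
    have z7 : M.Z d 7 = M.Z d 0 := M.Z_per h7 0
    have z8 : M.Z d 8 = M.Z d 1 := M.Z_per h7 1
    have z9 : M.Z d 9 = M.Z d 2 := M.Z_per h7 2
    have n7 : M.nb d 7 = M.nb d 0 := M.nb_per h7 0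
    have n8 : M.nb d 8 = M.nb d 1 := M.nb_per h7 1
    have s0 := hs 0
    have s1 := hs 1
    have s2 := hs 2
    have s3 := hs 3
    have s4 := hs 4
    have s5 := hs 5
    have s6 := hs 6
    have r0 := hr 0
    have r1 := hr 1
    have r2 := hr 2
    have r3 := hr 3
    have r4 := hr 4
    have r5 := hr 5
    have r6 := hr 6
    simp only [Nat.reduceAdd, z7, z8, z9, n7, n8] at s0 s1 s2 s3 s4 s5 s6 r0 r1 r2 r3 r4 r5 r6
    have c := chkF_true
    unfold chkF at c
    have c1 := imp_spec (allL_spec (allL_spec (allL_spec c (M.Z d 0)) (M.Z d 1)) (M.Z d 2)) r0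
    have c2 := imp_spec (allL_spec c1 (M.Z d 3)) r1
    have c3 := imp_spec (allL_spec c2 (M.Z d 4)) r2
    have c4 := imp_spec (allL_spec c3 (M.Z d 5)) r3
    have c5 := imp_spec (allL_spec c4 (M.Z d 6)) r4
    have c6 := imp_spec (imp_spec c5 r5) r6
    have c7 := Nat.le_of_ble_eq_true c6
    rw [← s0, ← s1, ← s2, ← s3, ← s4, ← s5, ← s6] at c7
    omega
  · push Not at hg
    obtain ⟨i, hi⟩ := hg
    have hi' : ∃ j, j < 7 ∧ ¬ M.good (M.nb d j) := by
      refine ⟨i % 7, Nat.mod_lt _ (by norm_num), ?_⟩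
      have h2 : ∀ m i, M.nb d (i + 7 * m) = M.nb d i := by
        intro m i
        induction m with
        | zero => rfl
        | succ m ih => rw [show i + 7 * (m + 1) = i + 7 * m + 7 by ring, M.nb_per h7, ih]
      rw [← h2 (i / 7), Nat.mod_add_div]
      exact hi
    obtain ⟨j, hj, hjg⟩ := hi'
    have m : ∀ i, 14 ≤ M.share (M.nb d i) := fun i =>
      M.share_F (h5 i) (by rw [W0]; exact hF)
    have m0 := m 0
    have m1 := m 1
    have m2 := m 2
    have m3 := m 3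
    have m4 := m 4
    have m5 := m 5
    have m6 := m 6
    have hs : M.share (M.nb d j) = 58 := if_neg hjg
    interval_cases j <;> omega

/-- The discharging at an `S`-vertex, for a special dart. -/
theorem seven_S (hS : M.L d = S) (h6 : M.dg (M.nb d 6) ≠ 5) :
    (∀ i, i < 6 → M.dg (M.nb d i) = 5) ∧
    70 ≤ M.share (M.nb d 0) + M.share (M.nb d 1) + M.share (M.nb d 2) + M.share (M.nb d 3) +
      M.share (M.nb d 4) + M.share (M.nb d 5) := by
  have hS' := M.L_S.1 hS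
  obtain ⟨h7, hT, k, hk, hk'⟩ := hS'
  have hk6 := hk' 6 h6
  have h5 : ∀ i, i < 6 → M.dg (M.nb d i) = 5 := by
    intro i hi
    by_contra hc
    have := hk' i hc
    omega
  refine ⟨h5, ?_⟩
  by_cases hg : ∀ i, i < 6 → M.good (M.nb d i)
  · have n7 : M.nb d 7 = M.nb d 0 := M.nb_per h7 0
    have n8 : M.nb d 8 = M.nb d 1 := M.nb_per h7 1
    have n9 : M.nb d 9 = M.nb d 2 := M.nb_per h7 2
    have n10 : M.nb d 10 = M.nb d 3 := M.nb_per h7 3
    have n11 : M.nb d 11 = M.nb d 4 := M.nb_per h7 4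
    have z7 : M.Z d 7 = M.Z d 0 := M.Z_per h7 0
    have z8 : M.Z d 8 = M.Z d 1 := M.Z_per h7 1
    have z9 : M.Z d 9 = M.Z d 2 := M.Z_per h7 2
    have w7 : M.W 7 d = M.W 0 d := by rw [M.W_nb, M.W_nb, n7]
    have w8 : M.W 8 d = M.W 1 d := by rw [M.W_nb, M.W_nb, n8]
    have w9 : M.W 9 d = M.W 2 d := by rw [M.W_nb, M.W_nb, n9]
    have w10 : M.W 10 d = M.W 3 d := by rw [M.W_nb, M.W_nb, n10]
    have w : ∀ i, i < 6 → M.W i d = a5 := fun i hi => M.L_a5.2 (h5 i hi)
    have e0 := h5 0 (by norm_num)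
    have e1 := h5 1 (by norm_num)
    have e2 := h5 2 (by norm_num)
    have e3 := h5 3 (by norm_num)
    have e4 := h5 4 (by norm_num)
    have e5 := h5 5 (by norm_num)
    have g0 := hg 0 (by norm_num)
    have g1 := hg 1 (by norm_num)
    have g2 := hg 2 (by norm_num)
    have g3 := hg 3 (by norm_num)
    have g4 := hg 4 (by norm_num)
    have g5 := hg 5 (by norm_num)
    have w0 := w 0 (by norm_num)
    have w1 := w 1 (by norm_num)
    have w2 := w 2 (by norm_num)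
    have w3 := w 3 (by norm_num)
    have w4 := w 4 (by norm_num)
    have w5 := w 5 (by norm_num)
    have ht : (!(M.W 6 d).i5) = true := by
      rcases hh : M.W 6 d with _ | _ | _ | _
      · exact absurd (M.L_a5.1 hh) h6
      · rfl
      · rfl
      · rfl
    -- inner shares
    have s2 := share_eq hT (i := 0) e1 g1 e2 g2 e3 g3
    have s3 := share_eq hT (i := 1) e2 g2 e3 g3 e4 g4
    have s4 := share_eq hT (i := 2) e3 g3 e4 g4 e5 g5
    have s1 := share_eq hT (i := 6) (by rw [n7]; exact e0) (by rw [n7]; exact g0)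
      (by rw [n8]; exact e1) (by rw [n8]; exact g1) (by rw [n9]; exact e2) (by rw [n9]; exact g2)
    -- ring triples
    have r0 := ring_ok hT (i := 0) e1 g1 e2 g2
    have r1 := ring_ok hT (i := 1) e2 g2 e3 g3
    have r2 := ring_ok hT (i := 2) e3 g3 e4 g4
    have r3 := ring_ok hT (i := 3) e4 g4 e5 g5
    have r6 := ring_ok hT (i := 6) (by rw [n7]; exact e0) (by rw [n7]; exact g0)
      (by rw [n8]; exact e1) (by rw [n8]; exact g1)
    -- the two ends
    have a0 : M.W 0 (M.nb d 0) = S := by rw [W0, hS]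
    have a1 : M.W 1 (M.nb d 0) = M.W 6 d := by rw [← n7]; exact W1 hT 6
    have a2 : M.W 2 (M.nb d 0) = M.Z d 6 := by rw [← n7]; rfl
    have a3 : M.W 3 (M.nb d 0) = M.Z d 0 := W3 hT e0 g0
    have a4 : M.W 4 (M.nb d 0) = a5 := by rw [W4 hT e0]; exact w1
    have b0 : M.W 0 (M.nb d 5) = S := by rw [W0, hS]
    have b1 : M.W 1 (M.nb d 5) = a5 := by rw [W1 hT 4]; exact w4
    have b2 : M.W 2 (M.nb d 5) = M.Z d 4 := rfl
    have b3 : M.W 3 (M.nb d 5) = M.Z d 5 := W3 hT e5 g5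
    have b4 : M.W 4 (M.nb d 5) = M.W 6 d := W4 hT e5
    have k0 := M.okw_of e0 g0
    have k5 := M.okw_of e5 g5
    rw [a0, a1, a2, a3, a4] at k0
    rw [b0, b1, b2, b3, b4] at k5
    unfold okw at k0 k5
    simp only [Bool.and_eq_true] at k0 k5
    have t0 : M.share (M.nb d 0) = tB S (M.W 6 d) (M.Z d 6) (M.Z d 0) a5 := by
      unfold share tbl
      rw [if_pos g0, a0, a1, a2, a3, a4]
      have : Nat.beq (tys S (M.W 6 d) (M.Z d 6) (M.Z d 0) a5) 17 = false := by
        unfold tys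
        have hty : ty a5 S (M.W 6 d) = 256 := by
          rcases hh : M.W 6 d with _ | _ | _ | _
          · rw [hh] at ht; simp [i5] at ht
          · rfl
          · rfl
          · rfl
        rw [hty]
        apply Bool.eq_false_iff.2
        intro hc
        have := Nat.eq_of_beq_eq_true hc
        omega
      rw [this]
      rfl
    have t5 : M.share (M.nb d 5) = tB S a5 (M.Z d 4) (M.Z d 5) (M.W 6 d) := by
      unfold share tbl
      rw [if_pos g5, b0, b1, b2, b3, b4]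
      have : Nat.beq (tys S a5 (M.Z d 4) (M.Z d 5) (M.W 6 d)) 17 = false := by
        unfold tys
        have hty : ty (M.W 6 d) S a5 = 256 := by
          rcases hh : M.W 6 d with _ | _ | _ | _
          · rw [hh] at ht; simp [i5] at ht
          · rfl
          · rfl
          · rfl
        rw [hty]
        apply Bool.eq_false_iff.2
        intro hc
        have := Nat.eq_of_beq_eq_true hc
        omega
      rw [this]
      rfl
    simp only [Nat.reduceAdd, z7, z8, z9, n7, n8, n9, w7, w8, w9, w10, w0, w1, w2, w3, w4, w5, hS]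
      at s1 s2 s3 s4 r0 r1 r2 r3 r6
    have c := chkS_true
    unfold chkS at c
    have c1 := imp_spec (allL_spec c (M.W 6 d)) ht
    have c2 := imp_spec (allL_spec (allL_spec c1 (M.Z d 6)) (M.Z d 0)) k0.2.1
    have c3 := imp_spec c2 k0.2.2.1
    have c4 := imp_spec (allL_spec c3 (M.Z d 1)) r6
    have c5 := imp_spec (allL_spec c4 (M.Z d 2)) r0
    have c6 := imp_spec (allL_spec c5 (M.Z d 3)) r1
    have c7 := imp_spec (allL_spec c6 (M.Z d 4)) r2
    have c8 := imp_spec (allL_spec c7 (M.Z d 5)) r3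
    have c9 := imp_spec c8 k5.2.2.2.1
    have c10 := imp_spec c9 k5.2.2.2.2
    have c11 := Nat.le_of_ble_eq_true c10
    rw [← t0, ← t5, ← s1, ← s2, ← s3, ← s4] at c11
    omega
  · push Not at hg
    obtain ⟨j, hj, hjg⟩ := hg
    have m : ∀ i, i < 6 → 3 ≤ M.share (M.nb d i) := fun i hi =>
      M.share_S (h5 i hi) (by rw [W0]; exact hS)
    have m0 := m 0 (by norm_num)
    have m1 := m 1 (by norm_num)
    have m2 := m 2 (by norm_num)
    have m3 := m 3 (by norm_num)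
    have m4 := m 4 (by norm_num)
    have m5 := m 5 (by norm_num)
    have hs : M.share (M.nb d j) = 58 := if_neg hjg
    interval_cases j <;> omega

end LMap

end Pool.Agent.U448.Light
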