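import Pool.Agent.U448.LightSeven

/-!
# Summing up the discharging
-/

set_option autoImplicit false

namespace Pool.Agent.U448.Light

open Lt Finset

namespace LMap

variable {D : Type} (M : LMap D)

open Classical in
/-- the share along darts that start at a vertex of degree 5 -/
noncomputable def shp (g : D) : ℕ := if M.dg g = 5 then M.share g else 0

open Classical in
/-- charge that the vertex of `d` receives along `d` -/
noncomputable def H (d : D) : ℕ := if (M.L d).iD = true then M.shp (M.r d) else 0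

open Classical in
/-- the demand of the vertex of `d`, per dart -/
noncomputable def A (d : D) : ℤ :=
  if M.dg d = 7 then (70 * (if M.dg (M.r d) = 5 then 1 else 0) - 50) else 0

open Classical in
/-- `d` joins two vertices of degree 5 -/
noncomputable def B (d : D) : ℕ := if M.dg d = 5 ∧ M.dg (M.r d) = 5 then 1 else 0

theorem sum_it [Fintype D] (f : D → ℤ) (i : ℕ) : ∑ d, f (M.s^[i] d) = ∑ d, f d := by
  have := Equiv.sum_comp (M.s ^ i) f
  rw [← this]
  refine Finset.sum_congr rfl fun d _ => ?_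
  rw [Equiv.Perm.iterate_eq_pow]

theorem avg [Fintype D] {n : ℕ} (hn : 0 < n) {f h : D → ℤ}
    (hle : ∀ d, ∑ i ∈ range n, f (M.s^[i] d) ≤ ∑ i ∈ range n, h (M.s^[i] d)) :
    ∑ d, f d ≤ ∑ d, h d := by
  have h1 : ∑ d, ∑ i ∈ range n, f (M.s^[i] d) ≤ ∑ d, ∑ i ∈ range n, h (M.s^[i] d) :=
    Finset.sum_le_sum fun d _ => hle d
  rw [Finset.sum_comm, Finset.sum_comm (s := univ)] at h1
  simp only [M.sum_it, Finset.sum_const, Finset.card_range, nsmul_eq_mul] at h1
  have hn' : (0 : ℤ) < n := by exact_mod_cast hn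
  exact le_of_mul_le_mul_left h1 hn'

theorem Q_s (φ : D → ℕ) {d : D} (h7 : M.dg d = 7) :
    ∑ i ∈ range 7, φ (M.nb (M.s d) i) = ∑ i ∈ range 7, φ (M.nb d i) := by
  have h : ∀ i, M.nb (M.s d) i = M.nb d (i + 1) := by
    intro i
    unfold nb
    rw [← Function.iterate_succ_apply]
  have n7 : M.nb d 7 = M.nb d 0 := M.nb_per h7 0
  simp only [h, Finset.sum_range_succ, Finset.sum_range_zero, Nat.reduceAdd, n7]
  omega

theorem Q_it (φ : D → ℕ) {d : D} (h7 : M.dg d = 7) (k : ℕ) :
    ∑ i ∈ range 7, φ (M.nb (M.s^[k] d) i) = ∑ i ∈ range 7, φ (M.nb d i) := by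
  induction k with
  | zero => rfl
  | succ k ih => rw [M.it_succ, M.Q_s φ (by rw [M.dg_it]; exact h7), ih]

theorem getF {d : D} (hF : M.L d = F) : 140 ≤ ∑ i ∈ range 7, M.shp (M.nb d i) := by
  have h1 := seven_F hF
  have h5 : ∀ i, M.shp (M.nb d i) = M.share (M.nb d i) := fun i =>
    if_pos ((M.L_F.1 hF).2 i).1
  simp only [h5, Finset.sum_range_succ, Finset.sum_range_zero]
  omega

theorem getS {d : D} (hS : M.L d = S) : 70 ≤ ∑ i ∈ range 7, M.shp (M.nb d i) := by
  obtain ⟨h7, hT, k, hk, hk'⟩ := M.L_S.1 hS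
  rw [← M.Q_it M.shp h7 (k + 1)]
  have h6 : M.dg (M.nb (M.s^[k + 1] d) 6) ≠ 5 := by
    unfold nb
    rw [M.it_add, show 6 + (k + 1) = k + 7 by ring, M.per7 h7]
    exact hk
  obtain ⟨h5, h⟩ := seven_S (d := M.s^[k + 1] d) (by rw [M.L_it]; exact hS) h6
  have e : ∀ i, i < 6 → M.shp (M.nb (M.s^[k + 1] d) i) = M.share (M.nb (M.s^[k + 1] d) i) :=
    fun i hi => if_pos (h5 i hi)
  simp only [Finset.sum_range_succ, Finset.sum_range_zero]
  rw [e 0 (by norm_num), e 1 (by norm_num), e 2 (by norm_num), e 3 (by norm_num),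
    e 4 (by norm_num), e 5 (by norm_num)]
  omega

theorem H_it (d : D) (i : ℕ) :
    M.H (M.s^[i] d) = if (M.L d).iD = true then M.shp (M.nb d i) else 0 := by
  unfold H nb
  rw [M.L_it]

/-- The inequality at a vertex of degree 7. -/
theorem at7 {d : D} (h7 : M.dg d = 7) :
    ∑ i ∈ range 7, M.A (M.s^[i] d) ≤
      ∑ i ∈ range 7, ((M.H (M.s^[i] d) : ℤ) + 175 * (M.bd (M.s^[i] d) : ℤ)) := by
  classical
  have hA : ∑ i ∈ range 7, M.A (M.s^[i] d) =
      140 - 70 * (((range 7).filter fun i => M.dg (M.nb d i) ≠ 5).card : ℤ) := by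
    have h1 : ∀ i, M.A (M.s^[i] d) = 20 - 70 * (if M.dg (M.nb d i) ≠ 5 then 1 else 0) := by
      intro i
      unfold A
      rw [if_pos (by rw [M.dg_it]; exact h7)]
      change 70 * (if M.dg (M.nb d i) = 5 then (1 : ℤ) else 0) - 50 = _
      by_cases h : M.dg (M.nb d i) = 5
      · simp [h]
      · simp [h]
    rw [Finset.sum_congr rfl fun i _ => h1 i, Finset.sum_sub_distrib, ← Finset.mul_sum,
      Finset.sum_boole]
    simp
  rw [hA, Finset.sum_add_distrib, ← Finset.mul_sum]
  have hHn : (0 : ℤ) ≤ ∑ i ∈ range 7, (M.H (M.s^[i] d) : ℤ) :=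
    Finset.sum_nonneg fun i _ => by positivity
  have hCn : (0 : ℤ) ≤ ∑ i ∈ range 7, (M.bd (M.s^[i] d) : ℤ) :=
    Finset.sum_nonneg fun i _ => by positivity
  by_cases hT : ∀ i, i < 7 → M.T (M.s^[i] d)
  · have hmod : ∀ j, M.s^[j] d = M.s^[j % 7] d := by
      intro j
      have h2 : ∀ m i, M.s^[i + 7 * m] d = M.s^[i] d := by
        intro m i
        induction m with
        | zero => rfl
        | succ m ih => rw [show i + 7 * (m + 1) = i + 7 * m + 7 by ring, M.per7 h7, ih]
      conv_lhs => rw [← Nat.mod_add_div j 7]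
      rw [h2]
    have hT' : ∀ i, M.T (M.s^[i] d) := by
      intro i
      rw [hmod]
      exact hT _ (Nat.mod_lt _ (by norm_num))
    rcases Nat.lt_or_ge ((range 7).filter fun i => M.dg (M.nb d i) ≠ 5).card 2 with hc | hc
    · interval_cases hcc : ((range 7).filter fun i => M.dg (M.nb d i) ≠ 5).card
      · have h0 : ∀ i, i < 7 → M.dg (M.nb d i) = 5 := by
          intro i hi
          by_contra h
          have : i ∈ (range 7).filter fun i => M.dg (M.nb d i) ≠ 5 := by
            simp [hi, h]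
          rw [Finset.card_eq_zero.1 hcc] at this
          simp at this
        have hF : M.L d = F := by
          rw [M.L_F]
          refine ⟨h7, fun i => ⟨?_, hT' i⟩⟩
          rw [hmod]
          exact h0 _ (Nat.mod_lt _ (by norm_num))
        have h1 := M.getF hF
        have h2 : ∑ i ∈ range 7, (M.H (M.s^[i] d) : ℤ) = ((∑ i ∈ range 7, M.shp (M.nb d i) : ℕ) : ℤ) := by
          push_cast
          refine Finset.sum_congr rfl fun i _ => ?_
          rw [M.H_it, hF]
          rfl
        have h3 : (140 : ℤ) ≤ ((∑ i ∈ range 7, M.shp (M.nb d i) : ℕ) : ℤ) := by exact_mod_cast h1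
        rw [h2]
        push_cast at h3 ⊢
        linarith
      · obtain ⟨k, hk⟩ := Finset.card_eq_one.1 hcc
        have hk1 : k ∈ (range 7).filter fun i => M.dg (M.nb d i) ≠ 5 := by rw [hk]; simp
        simp only [Finset.mem_filter, Finset.mem_range] at hk1
        have hS : M.L d = S := by
          rw [M.L_S]
          refine ⟨h7, hT', k, hk1.2, fun i hi => ?_⟩
          rw [hmod] at hi
          have : i % 7 ∈ (range 7).filter fun i => M.dg (M.nb d i) ≠ 5 := by
            simp only [Finset.mem_filter, Finset.mem_range]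
            exact ⟨Nat.mod_lt _ (by norm_num), hi⟩
          rw [hk, Finset.mem_singleton] at this
          omega
        have h1 := M.getS hS
        have h2 : ∑ i ∈ range 7, (M.H (M.s^[i] d) : ℤ) = ((∑ i ∈ range 7, M.shp (M.nb d i) : ℕ) : ℤ) := by
          push_cast
          refine Finset.sum_congr rfl fun i _ => ?_
          rw [M.H_it, hS]
          rfl
        have h3 : (70 : ℤ) ≤ ((∑ i ∈ range 7, M.shp (M.nb d i) : ℕ) : ℤ) := by exact_mod_cast h1
        rw [h2]
        push_cast at h3 ⊢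
        linarith
    · have : (2 : ℤ) ≤ (((range 7).filter fun i => M.dg (M.nb d i) ≠ 5).card : ℤ) := by
        exact_mod_cast hc
      linarith
  · push Not at hT
    obtain ⟨j, hj, hjT⟩ := hT
    have h1 : (1 : ℤ) ≤ ∑ i ∈ range 7, (M.bd (M.s^[i] d) : ℤ) := by
      have h2 : (M.bd (M.s^[j] d) : ℤ) ≤ ∑ i ∈ range 7, (M.bd (M.s^[i] d) : ℤ) :=
        Finset.single_le_sum (f := fun i => (M.bd (M.s^[i] d) : ℤ)) (fun i _ => by positivity)
          (Finset.mem_range.2 hj)
      have h3 : M.bd (M.s^[j] d) = 1 := if_neg hjT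
      rw [h3] at h2
      exact_mod_cast h2
    have h2 : (0 : ℤ) ≤ (((range 7).filter fun i => M.dg (M.nb d i) ≠ 5).card : ℤ) := by
      positivity
    linarith

open Classical in
/-- The local inequality, summed up. -/
theorem main [Fintype D] : ∑ d, M.A d ≤ 12 * ∑ d, (M.B d : ℤ) + 175 * ∑ d, (M.bd d : ℤ) := by
  set C7 : D → ℤ := fun d => if M.dg d = 7 then (M.bd d : ℤ) else 0 with hC7
  set C5 : D → ℤ := fun d => if M.dg d = 5 then (M.bd d : ℤ) else 0 with hC5
  have h1 : ∑ d, M.A d ≤ ∑ d, ((M.H d : ℤ) + 175 * C7 d) := by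
    refine M.avg (n := 7) (by norm_num) fun d => ?_
    by_cases h7 : M.dg d = 7
    · refine le_trans (M.at7 h7) (le_of_eq ?_)
      refine Finset.sum_congr rfl fun i _ => ?_
      simp only [hC7]
      rw [if_pos (by rw [M.dg_it]; exact h7)]
    · have e1 : ∀ i, M.A (M.s^[i] d) = 0 := by
        intro i
        unfold A
        rw [if_neg (by rw [M.dg_it]; exact h7)]
      simp only [e1, Finset.sum_const_zero]
      refine Finset.sum_nonneg fun i _ => ?_
      simp only [hC7]
      split_ifs <;> positivity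
  have h2 : ∑ d, (M.H d : ℤ) = ∑ d, (M.H (M.r d) : ℤ) :=
    (Equiv.sum_comp M.r fun d => (M.H d : ℤ)).symm
  have h3 : ∑ d, (M.H (M.r d) : ℤ) ≤ ∑ d, (12 * (M.B d : ℤ) + 175 * C5 d) := by
    refine M.avg (n := 5) (by norm_num) fun g => ?_
    by_cases h5 : M.dg g = 5
    · have h := M.five h5
      have e1 : ∀ j, M.H (M.r (M.s^[j] g)) = M.pt j g := by
        intro j
        unfold H shp pt W
        rw [M.rr, if_pos (c := M.dg (M.s^[j] g) = 5) (by rw [M.dg_it]; exact h5)]
      have e2 : ∀ j, M.B (M.s^[j] g) = c5 (M.W j g) := by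
        intro j
        unfold B c5
        by_cases hj : M.dg (M.r (M.s^[j] g)) = 5
        · rw [if_pos ⟨by rw [M.dg_it]; exact h5, hj⟩]
          have : M.W j g = a5 := M.L_a5.2 hj
          rw [this]
          rfl
        · rw [if_neg fun h => hj h.2]
          have : M.W j g ≠ a5 := fun h => hj (M.L_a5.1 h)
          rcases hw : M.W j g with _ | _ | _ | _
          · exact absurd hw this
          · rfl
          · rfl
          · rfl
      have e3 : ∀ j, C5 (M.s^[j] g) = (M.bd (M.s^[j] g) : ℤ) := by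
        intro j
        simp only [hC5]
        rw [if_pos (by rw [M.dg_it]; exact h5)]
      simp only [e1, e2, e3, Finset.sum_range_succ, Finset.sum_range_zero]
      have h' : ((M.pt 0 g + M.pt 1 g + M.pt 2 g + M.pt 3 g + M.pt 4 g : ℕ) : ℤ) ≤
          ((12 * (c5 (M.W 0 g) + c5 (M.W 1 g) + c5 (M.W 2 g) + c5 (M.W 3 g) + c5 (M.W 4 g)) +
          175 * (M.bd (M.s^[0] g) + M.bd (M.s^[1] g) + M.bd (M.s^[2] g) + M.bd (M.s^[3] g) +
          M.bd (M.s^[4] g)) : ℕ) : ℤ) := by exact_mod_cast h
      push_cast at h'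
      linarith
    · have e1 : ∀ j, M.H (M.r (M.s^[j] g)) = 0 := by
        intro j
        unfold H shp
        rw [M.rr, if_neg (c := M.dg (M.s^[j] g) = 5) (by rw [M.dg_it]; exact h5)]
        simp
      simp only [e1, Nat.cast_zero, Finset.sum_const_zero]
      refine Finset.sum_nonneg fun i _ => ?_
      simp only [hC5]
      split_ifs <;> positivity
  have h4 : ∑ d, (C7 d + C5 d) ≤ ∑ d, (M.bd d : ℤ) := by
    refine Finset.sum_le_sum fun d _ => ?_
    simp only [hC7, hC5]
    have : (0 : ℤ) ≤ (M.bd d : ℤ) := by positivity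
    split_ifs with h h'
    · omega
    · simp
    · simp
    · simp
  rw [Finset.sum_add_distrib] at h1 h3 h4
  rw [← Finset.mul_sum] at h1
  rw [← Finset.mul_sum, ← Finset.mul_sum] at h3
  linarith

end LMap

end Pool.Agent.U448.Light
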