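import Mathlib

/-!
# The finite discharging table for the light edge inequality

Letters: `a5` a vertex of degree 5, `F` a vertex of degree 7 all of whose neighbours have degree 5,
`S` a vertex of degree 7 with exactly one neighbour of degree different from 5 (with all incident
faces triangular in both cases), `O` anything else.
-/

set_option autoImplicit false

namespace Pool.Agent.U448.Light

/-- The letters. -/
inductive Lt
  | a5 | F | S | O
  deriving DecidableEq

namespace Lt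

/-- is the letter `a5`? -/
def i5 : Lt → Bool
  | a5 => true
  | _ => false

/-- is the letter `F`? -/
def iF : Lt → Bool
  | F => true
  | _ => false

/-- is the letter `S`? -/
def iS : Lt → Bool
  | S => true
  | _ => false

/-- is the letter `F` or `S`? -/
def iD : Lt → Bool
  | F => true
  | S => true
  | _ => false

end Lt

open Lt

/-- The type of the middle letter: 1 for `F`, 16 for `S` between two `a5`, 256 for the other `S`. -/
def ty : Lt → Lt → Lt → ℕ
  | _, a5, _ => 0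
  | _, O, _ => 0
  | _, F, _ => 1
  | a5, S, a5 => 16
  | _, S, _ => 256

/-- the number of `a5` -/
def c5 (a : Lt) : ℕ := cond a.i5 1 0

/-- the sum of the types -/
def tys (w0 w1 w2 w3 w4 : Lt) : ℕ :=
  ty w4 w0 w1 + (ty w0 w1 w2 + (ty w1 w2 w3 + (ty w2 w3 w4 + ty w3 w4 w0)))

/-- the number of `a5` in a word -/
def k5 (w0 w1 w2 w3 w4 : Lt) : ℕ := c5 w0 + (c5 w1 + (c5 w2 + (c5 w3 + c5 w4)))

/-- shares for the patterns without context -/
def tB (w0 w1 w2 w3 w4 : Lt) : ℕ :=
  let s := tys w0 w1 w2 w3 w4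
  let t := ty w4 w0 w1
  let k := k5 w0 w1 w2 w3 w4
  cond (Nat.beq s 1) (12 * k) <|
  cond (Nat.beq s 16) (12 * k) <|
  cond (Nat.beq s 256) (12 * k) <|
  cond (Nat.beq s 2) 18 <|
  cond (Nat.beq s 32) 18 <|
  cond (Nat.beq s 512) (6 * k) <|
  cond (Nat.beq s 513) (cond (Nat.beq t 1) 18 3) <|
  cond (Nat.beq s 528) (cond (Nat.beq t 16) 14 5) <|
  cond (Nat.beq s 257) (cond (Nat.beq t 1) 20 4) <|
  cond (Nat.beq s 272) (cond (Nat.beq t 16) 18 6) 0

/-- the share of the letter `F` in the pattern with context -/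
def fv (X c : Lt) : ℕ :=
  cond X.iF (cond c.i5 14 26) (cond c.i5 24 22)

/-- shares for the pattern with context -/
def tC (w0 w2 x0 x1 x3 x4 : Lt) : ℕ :=
  cond w0.iF (cond w2.iS (fv x3 x1) (fv x1 x3)) (cond w2.iF (36 - fv x3 x0) (36 - fv x1 x4))

/-- the share that the letter `w0` gets -/
def tbl (w0 w1 w2 w3 w4 x0 x1 x3 x4 : Lt) : ℕ :=
  cond (Nat.beq (tys w0 w1 w2 w3 w4) 17) (tC w0 w2 x0 x1 x3 x4) (tB w0 w1 w2 w3 w4)

/-- admissible triples of consecutive neighbours of `b`... : the letter `b` with two neighbours -/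
def ok3 (a b c : Lt) : Bool :=
  match b with
  | F => a.i5 && c.i5
  | S => a.i5 || c.i5
  | _ => true

/-- quantification over the letters -/
def allL (p : Lt → Bool) : Bool := p a5 && (p F && (p S && p O))

theorem allL_spec {p : Lt → Bool} (h : allL p = true) (l : Lt) : p l = true := by
  unfold allL at h
  simp only [Bool.and_eq_true] at h
  obtain ⟨h1, h2, h3, h4⟩ := h
  cases l <;> assumption

/-- implication -/
def imp (a b : Bool) : Bool := cond a b true

theorem imp_spec {a b : Bool} (h : imp a b = true) (ha : a = true) : b = true := by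
  subst ha; exact h

/-- admissible link words -/
def okw (w0 w1 w2 w3 w4 : Lt) : Bool :=
  ok3 w4 w0 w1 && (ok3 w0 w1 w2 && (ok3 w1 w2 w3 && (ok3 w2 w3 w4 && ok3 w3 w4 w0)))

/-- the part of letter `w0` -/
def part (w0 w1 w2 w3 w4 x0 x1 x3 x4 : Lt) : ℕ :=
  cond w0.iD (tbl w0 w1 w2 w3 w4 x0 x1 x3 x4) 0

/-- the sum of the parts -/
def parts (w0 w1 w2 w3 w4 x0 x1 x2 x3 x4 : Lt) : ℕ :=
  part w0 w1 w2 w3 w4 x0 x1 x3 x4 + (part w1 w2 w3 w4 w0 x1 x2 x4 x0 +
    (part w2 w3 w4 w0 w1 x2 x3 x0 x1 + (part w3 w4 w0 w1 w2 x3 x4 x1 x2 +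
      part w4 w0 w1 w2 w3 x4 x0 x2 x3)))

/-- the check at a vertex of degree 5, for the words with context -/
def chkC1 : Bool :=
  allL fun w0 => allL fun w1 => allL fun w2 => allL fun w3 => allL fun w4 =>
    imp (okw w0 w1 w2 w3 w4) <| imp (Nat.beq (tys w0 w1 w2 w3 w4) 17) <|
      allL fun x0 => allL fun x1 => allL fun x2 => allL fun x3 => allL fun x4 =>
        Nat.ble (parts w0 w1 w2 w3 w4 x0 x1 x2 x3 x4) (12 * k5 w0 w1 w2 w3 w4)

/-- the check at a vertex of degree 5, for the words without context -/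
def chkC2 : Bool :=
  allL fun w0 => allL fun w1 => allL fun w2 => allL fun w3 => allL fun w4 =>
    imp (okw w0 w1 w2 w3 w4) <|
      imp (!Nat.beq (tys w0 w1 w2 w3 w4) 17)
        (Nat.ble (parts w0 w1 w2 w3 w4 O O O O O) (12 * k5 w0 w1 w2 w3 w4))

/-- lower bounds for the shares -/
def chkM : Bool :=
  allL fun w0 => allL fun w1 => allL fun w2 => allL fun w3 => allL fun w4 =>
    imp (okw w0 w1 w2 w3 w4) <|
      imp w0.iF (Nat.ble 14 (cond (Nat.beq (tys w0 w1 w2 w3 w4) 17) 14 (tB w0 w1 w2 w3 w4))) &&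
      imp w0.iS (Nat.ble 3 (cond (Nat.beq (tys w0 w1 w2 w3 w4) 17) 10 (tB w0 w1 w2 w3 w4)))

/-- share of an `F`-vertex -/
def sF (a b c d : Lt) : ℕ := tbl F a5 b c a5 a5 a d a5

/-- the check at an `F`-vertex -/
def chkF : Bool :=
  allL fun z0 => allL fun z1 => allL fun z2 => imp (ok3 z0 z1 z2) <|
    allL fun z3 => imp (ok3 z1 z2 z3) <| allL fun z4 => imp (ok3 z2 z3 z4) <|
    allL fun z5 => imp (ok3 z3 z4 z5) <| allL fun z6 => imp (ok3 z4 z5 z6) <|
    imp (ok3 z5 z6 z0) <| imp (ok3 z6 z0 z1) <|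
    Nat.ble 140 (sF z0 z1 z2 z3 + (sF z1 z2 z3 z4 + (sF z2 z3 z4 z5 + (sF z3 z4 z5 z6 +
      (sF z4 z5 z6 z0 + (sF z5 z6 z0 z1 + sF z6 z0 z1 z2))))))

/-- the check at an `S`-vertex with the neighbour `t` of degree different from 5 -/
def chkS : Bool :=
  allL fun t => imp (!t.i5) <|
  allL fun z6 => allL fun z0 => imp (ok3 S t z6) <| imp (ok3 t z6 z0) <|
    allL fun z1 => imp (ok3 z6 z0 z1) <| allL fun z2 => imp (ok3 z0 z1 z2) <|
    allL fun z3 => imp (ok3 z1 z2 z3) <| allL fun z4 => imp (ok3 z2 z3 z4) <|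
    allL fun z5 => imp (ok3 z3 z4 z5) <| imp (ok3 z4 z5 t) <| imp (ok3 z5 t S) <|
    Nat.ble 70 (tB S t z6 z0 a5 + (tbl S a5 z0 z1 a5 t z6 z2 a5 + (tbl S a5 z1 z2 a5 a5 z0 z3 a5 +
      (tbl S a5 z2 z3 a5 a5 z1 z4 a5 + (tbl S a5 z3 z4 a5 a5 z2 z5 t + tB S a5 z4 z5 t)))))

set_option maxRecDepth 100000 in
theorem chkC1_true : chkC1 = true := by decide +kernel
set_option maxRecDepth 100000 in
theorem chkC2_true : chkC2 = true := by decide +kernel
set_option maxRecDepth 100000 in
theorem chkM_true : chkM = true := by decide +kernel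
set_option maxRecDepth 100000 in
theorem chkF_true : chkF = true := by decide +kernel
set_option maxRecDepth 100000 in
theorem chkS_true : chkS = true := by decide +kernel

end Pool.Agent.U448.Light
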