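import Pool.Agent.U448.LightGraph

/-!
# The inequality `7 e_{5,5} + 3 e_{5,6} ≥ 180`
-/

set_option autoImplicit false

namespace Pool.Agent.U448.Light

open Finset

namespace PlaneGraph

variable {V : Type} [Fintype V] (G : PlaneGraph V)

theorem rev_fst (d : G.graph.Dart) : (rev G.graph d).fst = d.snd := rfl

theorem rev_snd (d : G.graph.Dart) : (rev G.graph d).snd = d.fst := rfl

theorem dart_ext {d e : G.graph.Dart} (h1 : d.fst = e.fst) (h2 : d.snd = e.snd) : d = e :=
  SimpleGraph.Dart.ext _ _ (Prod.ext h1 h2)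

theorem psi_ne (d : G.graph.Dart) : G.toLMap.psi d ≠ d := by
  intro h
  have h1 : (G.rot d).snd = d.fst := congrArg (fun x : G.graph.Dart => x.fst) h
  have h2 := (G.rot d).adj
  rw [h1, G.fst_rot] at h2
  exact G.graph.loopless.irrefl _ h2

theorem psi2_ne (hd : ∀ v, 5 ≤ G.deg v) (d : G.graph.Dart) :
    G.toLMap.psi (G.toLMap.psi d) ≠ d := by
  intro h
  have h1 : G.rot (rev G.graph (G.rot d)) = rev G.graph d := by
    have := congrArg (rev G.graph) h
    exact (SimpleGraph.Dart.symm_symm _).symm.trans this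
  have h2 : (G.rot d).snd = d.snd := by
    have h3 := congrArg (fun x : G.graph.Dart => x.fst) h1
    simp only [G.fst_rot] at h3
    exact h3
  have h4 : G.rot d = d := G.dart_ext (G.fst_rot d) h2
  have h5 : Function.minimalPeriod G.rot d = 1 :=
    Function.minimalPeriod_eq_one_iff_isFixedPt.2 h4
  rw [G.period_rot] at h5
  have := hd d.fst
  omega

/-- the period of the face walk -/
theorem face_period (hd : ∀ v, 5 ≤ G.deg v) (d : G.graph.Dart) :
    12 ≤ Function.minimalPeriod (rev G.graph * G.rot) d * (4 - G.toLMap.bd d) := by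
  set p := Function.minimalPeriod (rev G.graph * G.rot) d with hp
  have hper : ((rev G.graph * G.rot : Equiv.Perm _) : _ → _)^[p] d = d :=
    Function.iterate_minimalPeriod
  have h0 : 0 < p := per_pos _ d
  have h1 : p ≠ 1 := by
    intro h
    rw [h] at hper
    exact G.psi_ne d hper
  have h2 : p ≠ 2 := by
    intro h
    rw [h] at hper
    exact G.psi2_ne hd d hper
  by_cases hT : G.toLMap.T d
  · have : G.toLMap.bd d = 0 := if_pos hT
    rw [this]
    omega
  · have h3 : p ≠ 3 := by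
      intro h
      rw [h] at hper
      exact hT hper
    have : G.toLMap.bd d = 1 := if_neg hT
    rw [this]
    omega

theorem bd_le (d : G.graph.Dart) : G.toLMap.bd d ≤ 1 := by
  unfold LMap.bd
  split_ifs <;> omega

theorem bd_same {d x : G.graph.Dart} (h : (rev G.graph * G.rot).SameCycle d x) :
    G.toLMap.bd x = G.toLMap.bd d := by
  have key : ∀ n : ℕ,
      G.toLMap.T (((rev G.graph * G.rot) ^ n : Equiv.Perm _) d) ↔ G.toLMap.T d := by
    intro n
    induction n with
    | zero => exact Iff.rfl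
    | succ n ih =>
      rw [pow_succ', Equiv.Perm.mul_apply]
      exact (G.toLMap.T_psi _).trans ih
  obtain ⟨n, rfl⟩ := h.exists_nat_pow_eq
  have := key n
  unfold LMap.bd
  by_cases hT : G.toLMap.T d
  · rw [if_pos (this.2 hT), if_pos hT]
  · rw [if_neg (fun h => hT (this.1 h)), if_neg hT]

/-- The number of the faces. -/
theorem faces_le (hd : ∀ v, 5 ≤ G.deg v) :
    (Nat.card (Quotient (Equiv.Perm.SameCycle.setoid (rev G.graph * G.rot))) : ℚ) ≤
      ∑ d : G.graph.Dart, (4 - (G.toLMap.bd d : ℚ)) / 12 := by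
  classical
  refine card_quot_le _ _ fun d => ?_
  rw [Finset.sum_congr rfl fun x hx => by
    rw [G.bd_same (show (rev G.graph * G.rot).SameCycle d x from (Finset.mem_filter.1 hx).2)],
    Finset.sum_const, nsmul_eq_mul]
  have h2 := card_class (rev G.graph * G.rot) d
  have h3 : ((univ.filter fun x => (Equiv.Perm.SameCycle.setoid (rev G.graph * G.rot)) d x).card : ℚ)
      = Function.minimalPeriod (rev G.graph * G.rot) d := by
    rw [← h2]
    congr 2
    ext x
    simp only [mem_filter, mem_univ, true_and]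
    exact Iff.rfl
  rw [h3]
  have h4 := G.face_period hd d
  have h5 := G.bd_le d
  have h6 : ((4 - G.toLMap.bd d : ℕ) : ℚ) = 4 - (G.toLMap.bd d : ℚ) := by
    rw [Nat.cast_sub (by omega)]
    norm_num
  rw [← h6]
  have h7 : (12 : ℚ) ≤ Function.minimalPeriod (rev G.graph * G.rot) d *
      ((4 - G.toLMap.bd d : ℕ) : ℚ) := by exact_mod_cast h4
  linarith

/-- The number of the vertices. -/
theorem card_V (hd : ∀ v, 5 ≤ G.deg v) :
    (Nat.card V : ℚ) = ∑ d : G.graph.Dart, 1 / (G.deg d.fst : ℚ) := by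
  classical
  rw [← Finset.sum_fiberwise univ (fun d : G.graph.Dart => d.fst), Nat.card_eq_fintype_card,
    ← Finset.card_univ, Finset.cast_card]
  refine Finset.sum_congr rfl fun v _ => ?_
  have h1 : ∑ d with (d : G.graph.Dart).fst = v, 1 / (G.deg d.fst : ℚ) =
      ∑ d with (d : G.graph.Dart).fst = v, 1 / (G.deg v : ℚ) := by
    refine Finset.sum_congr rfl fun x hx => ?_
    rw [(Finset.mem_filter.1 hx).2]
  rw [h1, Finset.sum_const, nsmul_eq_mul]
  have h2 : ((univ.filter fun d : G.graph.Dart => d.fst = v).card : ℚ) = G.deg v := by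
    rw [G.card_fst]
  rw [h2]
  have h3 : (0 : ℚ) < G.deg v := by
    have := hd v
    exact_mod_cast (by omega : 0 < G.deg v)
  field_simp

/-- The number of the edges. -/
theorem card_E : 2 * (Nat.card G.graph.edgeSet : ℚ) = ∑ _d : G.graph.Dart, (1 : ℚ) := by
  classical
  have h := G.graph.dart_card_eq_twice_card_edges
  rw [Finset.sum_const, nsmul_eq_mul, mul_one, Finset.card_univ, h, Nat.card_eq_fintype_card,
    ← SimpleGraph.edgeFinset_card]
  push_cast
  rfl

open Classical in
/-- the number of darts from degree `i` to degree `j` -/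
noncomputable def dd (i j : ℕ) : ℕ :=
  (univ.filter fun d : G.graph.Dart => G.deg d.fst = i ∧ G.deg d.snd = j).card

theorem dd_symm (i j : ℕ) : G.dd i j = G.dd j i := by
  classical
  unfold dd
  refine Finset.card_bij' (fun d _ => rev G.graph d) (fun d _ => rev G.graph d) ?_ ?_ ?_ ?_
  · intro d hd
    simp only [mem_filter, mem_univ, true_and] at hd ⊢
    exact ⟨hd.2, hd.1⟩
  · intro d hd
    simp only [mem_filter, mem_univ, true_and] at hd ⊢
    exact ⟨hd.2, hd.1⟩
  · intro d _
    exact SimpleGraph.Dart.symm_symm d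
  · intro d _
    exact SimpleGraph.Dart.symm_symm d

open Classical in
theorem two_e (i j : ℕ) : (univ.filter fun d : G.graph.Dart =>
    (G.deg d.fst = i ∧ G.deg d.snd = j) ∨ (G.deg d.fst = j ∧ G.deg d.snd = i)).card =
      2 * G.e i j := by
  have h0 : G.e i j = (G.graph.edgeFinset.filter fun e : Sym2 V =>
      ∃ u v, e = s(u, v) ∧ G.deg u = i ∧ G.deg v = j).card := by
    unfold e
    rw [Nat.card_eq_fintype_card, Fintype.card_subtype]
    congr 1
    ext x
    simp
  rw [h0, Finset.card_eq_sum_card_fiberwise (f := fun d : G.graph.Dart => d.edge)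
    (t := G.graph.edgeFinset.filter fun e : Sym2 V =>
      ∃ u v, e = s(u, v) ∧ G.deg u = i ∧ G.deg v = j)]
  · rw [← mul_comm, Finset.sum_const_nat]
    intro x hx
    simp only [mem_filter, SimpleGraph.mem_edgeFinset] at hx
    obtain ⟨hx1, u, v, rfl, hu, hv⟩ := hx
    rw [← G.graph.dart_edge_fiber_card s(u, v) hx1]
    congr 1
    ext d
    simp only [mem_filter, mem_univ, true_and, and_iff_right_iff_imp]
    intro hd
    have : s(d.fst, d.snd) = s(u, v) := hd
    rw [Sym2.eq_iff] at this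
    rcases this with ⟨h1, h2⟩ | ⟨h1, h2⟩
    · left
      rw [h1, h2]
      exact ⟨hu, hv⟩
    · right
      rw [h1, h2]
      exact ⟨hv, hu⟩
  · intro d hd
    simp only [coe_filter, mem_univ, true_and, Set.mem_ofPred_eq,
      SimpleGraph.mem_edgeFinset] at hd ⊢
    refine ⟨d.edge_mem, ?_⟩
    rcases hd with ⟨h1, h2⟩ | ⟨h1, h2⟩
    · exact ⟨d.fst, d.snd, rfl, h1, h2⟩
    · exact ⟨d.snd, d.fst, Sym2.eq_swap, h2, h1⟩

theorem e55 : G.dd 5 5 = 2 * G.e 5 5 := by
  classical
  rw [← G.two_e]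
  unfold dd
  congr 1
  ext d
  simp only [mem_filter, mem_univ, true_and, or_self]

theorem e56 : G.dd 5 6 = G.e 5 6 := by
  classical
  have h1 := G.two_e 5 6
  have h2 : (univ.filter fun d : G.graph.Dart =>
    (G.deg d.fst = 5 ∧ G.deg d.snd = 6) ∨ (G.deg d.fst = 6 ∧ G.deg d.snd = 5)).card =
      G.dd 5 6 + G.dd 6 5 := by
    unfold dd
    rw [Finset.filter_or, Finset.card_union_of_disjoint]
    rw [Finset.disjoint_filter]
    rintro d _ ⟨ha, _⟩ ⟨hb, _⟩
    omega
  rw [h2, G.dd_symm 6 5] at h1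
  omega

theorem components_pos (v : V) : 1 ≤ Nat.card G.graph.ConnectedComponent := by
  classical
  have : Nonempty G.graph.ConnectedComponent := ⟨G.graph.connectedComponentMk v⟩
  exact Nat.card_pos

/-- Comparison of the charge of one dart. -/
theorem charge (hd : ∀ v, 5 ≤ G.deg v) (d : G.graph.Dart) :
    30 / (G.deg d.fst : ℚ) - 5 ≤ (if G.deg d.fst = 5 then 1 else 0) -
      (if G.deg d.fst = 7 then 5 / 7 else 0) - (if 8 ≤ G.deg d.fst then 1 else 0) := by
  rcases Nat.lt_or_ge (G.deg d.fst) 8 with h | h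
  · have h5 := hd d.fst
    obtain ⟨n, hn⟩ : ∃ n, G.deg d.fst = n := ⟨_, rfl⟩
    rw [hn] at h h5 ⊢
    interval_cases n <;> norm_num
  · rw [if_neg (by omega), if_neg (by omega), if_pos h]
    have h8 : (8 : ℚ) ≤ G.deg d.fst := by exact_mod_cast h
    have : 30 / (G.deg d.fst : ℚ) ≤ 30 / 8 := by
      apply div_le_div_of_nonneg_left <;> linarith
    linarith

open Classical in
theorem five_split : (∑ d : G.graph.Dart, (if G.deg d.fst = 5 then (1 : ℚ) else 0)) ≤
    G.dd 5 5 + G.dd 5 6 + (∑ d : G.graph.Dart, (if G.deg d.fst = 7 ∧ G.deg d.snd = 5 then 1 else 0))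
      + ∑ d : G.graph.Dart, (if 8 ≤ G.deg d.fst then 1 else 0) ∨ ∃ v, G.deg v < 5 := by
  by_cases hd : ∃ v, G.deg v < 5
  · exact Or.inr hd
  · left
    push Not at hd
    have h1 : (∑ d : G.graph.Dart, (if G.deg d.fst = 7 ∧ G.deg d.snd = 5 then (1 : ℚ) else 0)) =
        ∑ d : G.graph.Dart, (if G.deg d.snd = 7 ∧ G.deg d.fst = 5 then 1 else 0) := by
      rw [← Equiv.sum_comp (rev G.graph)]
      rfl
    have h2 : (∑ d : G.graph.Dart, (if 8 ≤ G.deg d.fst then (1 : ℚ) else 0)) =
        ∑ d : G.graph.Dart, (if 8 ≤ G.deg d.snd then 1 else 0) := by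
      rw [← Equiv.sum_comp (rev G.graph)]
      rfl
    have h3 : (G.dd 5 5 : ℚ) =
        ∑ d : G.graph.Dart, (if G.deg d.fst = 5 ∧ G.deg d.snd = 5 then 1 else 0) := by
      unfold dd
      rw [Finset.sum_boole]
    have h4 : (G.dd 5 6 : ℚ) =
        ∑ d : G.graph.Dart, (if G.deg d.fst = 5 ∧ G.deg d.snd = 6 then 1 else 0) := by
      unfold dd
      rw [Finset.sum_boole]
    rw [h1, h2, h3, h4, ← Finset.sum_add_distrib, ← Finset.sum_add_distrib,
      ← Finset.sum_add_distrib]
    refine Finset.sum_le_sum fun d _ => ?_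
    have h5 := hd d.snd
    by_cases hf : G.deg d.fst = 5
    · rw [if_pos hf]
      rcases Nat.lt_or_ge (G.deg d.snd) 8 with h | h
      · obtain ⟨n, hn⟩ : ∃ n, G.deg d.snd = n := ⟨_, rfl⟩
        rw [hn] at h h5 ⊢
        rw [hf]
        interval_cases n <;> norm_num
      · rw [if_pos h]
        have a : (0 : ℚ) ≤ (if G.deg d.fst = 5 ∧ G.deg d.snd = 5 then 1 else 0) := by
          split_ifs <;> norm_num
        have b : (0 : ℚ) ≤ (if G.deg d.fst = 5 ∧ G.deg d.snd = 6 then 1 else 0) := by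
          split_ifs <;> norm_num
        have c : (0 : ℚ) ≤ (if G.deg d.snd = 7 ∧ G.deg d.fst = 5 then 1 else 0) := by
          split_ifs <;> norm_num
        linarith
    · rw [if_neg hf]
      positivity

/-- The inequality obtained from Euler's formula and the discharging. -/
theorem euler_bound (h : ∀ v, 5 ≤ G.deg v) (v : V) : 2100 ≤ 82 * G.e 5 5 + 35 * G.e 5 6 := by
  classical
  have hE := G.euler
  have hEq : (Nat.card V : ℚ) +
      Nat.card (Quotient (Equiv.Perm.SameCycle.setoid (rev G.graph * G.rot))) =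
      Nat.card G.graph.edgeSet + 2 * Nat.card G.graph.ConnectedComponent := by exact_mod_cast hE
  have hc : (1 : ℚ) ≤ Nat.card G.graph.ConnectedComponent := by
    exact_mod_cast G.components_pos v
  have hF := G.faces_le h
  have hV := G.card_V h
  have hEd := G.card_E
  have hF' : ∑ d : G.graph.Dart, (4 - (G.toLMap.bd d : ℚ)) / 12 =
      (∑ _d : G.graph.Dart, (1 : ℚ)) / 3 - (∑ d : G.graph.Dart, (G.toLMap.bd d : ℚ)) / 12 := by
    rw [← Finset.sum_div, Finset.sum_sub_distrib]
    have : ∑ _d : G.graph.Dart, (4 : ℚ) = 4 * ∑ _d : G.graph.Dart, (1 : ℚ) := by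
      rw [Finset.mul_sum]
      simp
    rw [this]
    ring
  rw [hF'] at hF
  have h1 : ∑ d : G.graph.Dart, (30 / (G.deg d.fst : ℚ) - 5) =
      30 * (Nat.card V : ℚ) - 5 * ∑ _d : G.graph.Dart, (1 : ℚ) := by
    rw [hV, Finset.sum_sub_distrib, Finset.mul_sum, Finset.mul_sum]
    congr 1
    · refine Finset.sum_congr rfl fun d _ => ?_
      ring
    · simp
  have h2 : ∑ d : G.graph.Dart, (30 / (G.deg d.fst : ℚ) - 5) ≤
      ∑ d : G.graph.Dart, ((if G.deg d.fst = 5 then (1 : ℚ) else 0) -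
      (if G.deg d.fst = 7 then 5 / 7 else 0) - (if 8 ≤ G.deg d.fst then 1 else 0)) :=
    Finset.sum_le_sum fun d _ => G.charge h d
  have h2' : ∑ d : G.graph.Dart, ((if G.deg d.fst = 5 then (1 : ℚ) else 0) -
      (if G.deg d.fst = 7 then 5 / 7 else 0) - (if 8 ≤ G.deg d.fst then 1 else 0)) =
      ∑ d : G.graph.Dart, (if G.deg d.fst = 5 then (1 : ℚ) else 0) -
      ∑ d : G.graph.Dart, (if G.deg d.fst = 7 then (5 / 7 : ℚ) else 0) -
      ∑ d : G.graph.Dart, (if 8 ≤ G.deg d.fst then (1 : ℚ) else 0) := by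
    rw [Finset.sum_sub_distrib, Finset.sum_sub_distrib]
  rw [h2', h1] at h2
  have h3 := G.five_split.resolve_right (by
    rintro ⟨v, hv⟩
    have := h v
    omega)
  have h4 := G.toLMap.main
  have h5 : (∑ d : G.graph.Dart, (G.toLMap.A d : ℚ)) =
      70 * (∑ d : G.graph.Dart, (if G.deg d.fst = 7 ∧ G.deg d.snd = 5 then (1 : ℚ) else 0)) -
      70 * ∑ d : G.graph.Dart, (if G.deg d.fst = 7 then (5 / 7 : ℚ) else 0) := by
    rw [Finset.mul_sum, Finset.mul_sum, ← Finset.sum_sub_distrib]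
    refine Finset.sum_congr rfl fun d _ => ?_
    change (((if G.deg d.fst = 7 then (70 * (if G.deg d.snd = 5 then 1 else 0) - 50) else 0 : ℤ)) : ℚ)
      = _
    by_cases a : G.deg d.fst = 7
    · by_cases b : G.deg d.snd = 5
      · rw [if_pos a, if_pos b, if_pos ⟨a, b⟩, if_pos a]
        norm_num
      · rw [if_pos a, if_neg b, if_neg (fun h => b h.2), if_pos a]
        norm_num
    · rw [if_neg a, if_neg (fun h => a h.1), if_neg a]
      norm_num
  have h6 : (∑ d : G.graph.Dart, (G.toLMap.B d : ℚ)) = G.dd 5 5 := by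
    unfold dd
    rw [← Finset.sum_boole]
    refine Finset.sum_congr rfl fun d _ => ?_
    change (((if G.deg d.fst = 5 ∧ G.deg d.snd = 5 then 1 else 0 : ℕ)) : ℚ) = _
    split_ifs <;> simp
  have h7 : (∑ d : G.graph.Dart, (G.toLMap.A d : ℚ)) ≤
      12 * (∑ d : G.graph.Dart, (G.toLMap.B d : ℚ)) + 175 * ∑ d : G.graph.Dart, (G.toLMap.bd d : ℚ) := by
    exact_mod_cast h4
  rw [h5, h6] at h7
  have h8 : (G.dd 5 5 : ℚ) = 2 * G.e 5 5 := by exact_mod_cast G.e55
  have h9 : (G.dd 5 6 : ℚ) = G.e 5 6 := by exact_mod_cast G.e56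
  rw [h8] at h7 h3
  rw [h9] at h3
  have h10 : (2100 : ℚ) ≤ 82 * G.e 5 5 + 35 * G.e 5 6 := by linarith
  exact_mod_cast h10

/-- The light edge inequality. -/
theorem upper (h : G.MinDegreeFive) : 180 ≤ 7 * G.e 5 5 + 3 * G.e 5 6 := by
  obtain ⟨h1, v, _⟩ := h
  have := G.euler_bound h1 v
  omega

end PlaneGraph

end Pool.Agent.U448.Light
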